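import Pool.Agent.Work.MP_f36782_h4.Negative

set_option autoImplicit false

/-!
If all sets in a closed determined family which are invariant under the coarse relation of a bounded
set of functions are Ramsey then all sets in the family are Ramsey.
-/

namespace Pool.Agent.Work.RamseyAD

/-- a sequence of end points -/
def ep (h : ℕ → ℕ) : ℕ → ℕ
  | 0 => 0
  | j + 1 => h^[j + 1] (ep h j) + 1

/-- the number of the interval which contains `n` -/
def pr (h : ℕ → ℕ) (n : ℕ) : ℕ := Nat.findGreatest (fun j => ep h j ≤ n) n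

/-- the two ways to join neighbouring intervals -/
def lab (h : ℕ → ℕ) (c : ℕ) (n : ℕ) : ℕ := (pr h n + c) / 2

/-- `n` and `m` have distance at most `k` in the scale `h` -/
def Rel (h : ℕ → ℕ) (k n m : ℕ) : Prop := m ≤ h^[k] n ∧ n ≤ h^[k] m

section

variable {h : ℕ → ℕ} (hm : Monotone h) (hlt : ∀ n, n < h n)

include hlt

theorem le_iter (k n : ℕ) : n ≤ h^[k] n := by
  induction k with
  | zero => exact le_rfl
  | succ k ih =>
    rw [Function.iterate_succ_apply']
    exact ih.trans (hlt _).le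

theorem ep_lt (j : ℕ) : ep h j < ep h (j + 1) := by
  show ep h j < h^[j + 1] (ep h j) + 1
  have := le_iter hlt (j + 1) (ep h j)
  omega

theorem ep_strictMono : StrictMono (ep h) := strictMono_nat_of_lt_succ (ep_lt hlt)

theorem le_pr {j n : ℕ} : j ≤ pr h n ↔ ep h j ≤ n := by
  unfold pr
  constructor
  · intro hj
    have h1 : ep h (Nat.findGreatest (fun j => ep h j ≤ n) n) ≤ n :=
      Nat.findGreatest_spec (P := fun j => ep h j ≤ n) (Nat.zero_le n)
        (show ep h 0 ≤ n from Nat.zero_le n)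
    exact ((ep_strictMono hlt).monotone hj).trans h1
  · intro hj
    exact Nat.le_findGreatest (((ep_strictMono hlt).le_apply).trans hj) hj

theorem pr_lt {j n : ℕ} : pr h n < j ↔ n < ep h j := by
  rw [← not_le, ← not_le, le_pr hlt]

theorem pr_mono {n m : ℕ} (hnm : n ≤ m) : pr h n ≤ pr h m :=
  (le_pr hlt).2 (((le_pr hlt).1 le_rfl).trans hnm)

theorem pr_le (n : ℕ) : pr h n ≤ n := Nat.findGreatest_le n

include hm

theorem iter_mono {k l n m : ℕ} (hkl : k ≤ l) (hnm : n ≤ m) : h^[k] n ≤ h^[l] m := by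
  refine ((hm.iterate k) hnm).trans ?_
  obtain ⟨d, rfl⟩ := Nat.exists_eq_add_of_le hkl
  rw [add_comm, Function.iterate_add_apply]
  exact le_iter hlt d _

/-- neighbours are in neighbouring intervals -/
theorem pr_near {k n m : ℕ} (h1 : Rel h k n m) (hk : k ≤ pr h n + 2) : pr h m ≤ pr h n + 1 := by
  have h2 : n ≤ ep h (pr h n + 1) := ((pr_lt hlt).1 (Nat.lt_succ_self _)).le
  have h3 : m < ep h (pr h n + 2) := by
    show m < h^[pr h n + 1 + 1] (ep h (pr h n + 1)) + 1
    have := iter_mono hm hlt hk h2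
    have h4 := h1.1
    have h5 : h^[pr h n + 2] (ep h (pr h n + 1)) = h^[pr h n + 1 + 1] (ep h (pr h n + 1)) := rfl
    omega
  have := (pr_lt hlt).2 h3
  omega

/-- there are no neighbours on both sides -/
theorem not_both {k n m m' : ℕ} (h1 : Rel h k n m) (h2 : Rel h k n m') (hk : 2 * k ≤ pr h n + 1)
    (hm1 : pr h m < pr h n) (hm2 : pr h n < pr h m') : False := by
  have h3 : m < ep h (pr h n) := (pr_lt hlt).1 hm1
  have h4 : ep h (pr h n + 1) ≤ m' := (le_pr hlt).1 hm2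
  have h5 : n ≤ h^[k] (ep h (pr h n)) := h1.2.trans (iter_mono hm hlt le_rfl h3.le)
  have h6 : m' ≤ h^[k] (h^[k] (ep h (pr h n))) := h2.1.trans (iter_mono hm hlt le_rfl h5)
  rw [← Function.iterate_add_apply] at h6
  have h7 : h^[k + k] (ep h (pr h n)) ≤ h^[pr h n + 1] (ep h (pr h n)) :=
    iter_mono hm hlt (by omega) le_rfl
  have h8 : ep h (pr h n + 1) = h^[pr h n + 1] (ep h (pr h n)) + 1 := rfl
  omega

theorem Rel.mono' {k l n m : ℕ} (h1 : Rel h k n m) (hkl : k ≤ l) : Rel h l n m :=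
  ⟨h1.1.trans (iter_mono hm hlt hkl le_rfl), h1.2.trans (iter_mono hm hlt hkl le_rfl)⟩

/-- one of the two labels is constant on the neighbourhood of `n` -/
theorem lab_const (n : ℕ) : (∀ k m, 2 * k ≤ pr h n + 1 → Rel h k n m → lab h 0 m = lab h 0 n) ∨
    (∀ k m, 2 * k ≤ pr h n + 1 → Rel h k n m → lab h 1 m = lab h 1 n) := by
  by_contra hcon
  push Not at hcon
  obtain ⟨⟨k, m, hk, hkm, hne⟩, k', m', hk', hkm', hne'⟩ := hcon
  unfold lab at hne hne'
  have key : ∀ k m, 2 * k ≤ pr h n + 1 → Rel h k n m → pr h m ≤ pr h n + 1 ∧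
      pr h n ≤ pr h m + 1 := by
    intro k m hk hkm
    have h1 := pr_near hm hlt hkm (by omega)
    refine ⟨h1, ?_⟩
    by_contra h2
    -- then `m` is below the interval before `n`
    have h3 : m < ep h (pr h n - 1) := (pr_lt hlt).1 (by omega)
    have h4 : n ≤ h^[k] (ep h (pr h n - 1)) := hkm.2.trans (iter_mono hm hlt le_rfl h3.le)
    have h5 : h^[k] (ep h (pr h n - 1)) ≤ h^[pr h n - 1 + 1] (ep h (pr h n - 1)) :=
      iter_mono hm hlt (by omega) le_rfl
    have h6 : ep h (pr h n - 1 + 1) = h^[pr h n - 1 + 1] (ep h (pr h n - 1)) + 1 := rfl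
    have h7 : ep h (pr h n) ≤ n := (le_pr hlt).1 le_rfl
    have h8 : pr h n - 1 + 1 = pr h n := by omega
    rw [h8] at h5 h6
    omega
  have h1 := key k m hk hkm
  have h2 := key k' m' hk' hkm'
  have hK : ∀ l, 2 * l ≤ pr h n + 1 → l ≤ (pr h n + 1) / 2 := fun l hl => by omega
  have h3 := hkm.mono' hm hlt (hK k hk)
  have h4 := hkm'.mono' hm hlt (hK k' hk')
  rcases Nat.lt_or_ge (pr h m) (pr h n) with h5 | h5
  · rcases Nat.lt_or_ge (pr h n) (pr h m') with h6 | h6
    · exact not_both hm hlt h3 h4 (by omega) h5 h6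
    · omega
  · rcases Nat.lt_or_ge (pr h m') (pr h n) with h6 | h6
    · exact not_both hm hlt h4 h3 (by omega) h6 (by omega)
    · omega

end

/-! ### Deep sets -/

/-- `x` is deep for the label `c`: the label is constant on the neighbourhoods of the elements of
`x`, up to finitely many elements for every size of the neighbourhoods -/
def Deep (h : ℕ → ℕ) (c : ℕ) (x : C) : Prop :=
  ∀ k, ∃ N, ∀ n, N ≤ n → x n = true → ∀ m, Rel h k n m → lab h c m = lab h c n

/-- the set of the labels of the elements of `x` -/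
noncomputable def lset (h : ℕ → ℕ) (c : ℕ) (x : C) : C := fun i =>
  open Classical in decide (∃ n, x n = true ∧ lab h c n = i)

/-- `x` and `y` are close up to finitely many elements -/
def Near (h : ℕ → ℕ) (x y : C) : Prop :=
  ∃ N, (∀ n, N ≤ n → x n = true → ∃ m, y m = true ∧ Rel h 1 n m) ∧
    (∀ n, N ≤ n → y n = true → ∃ m, x m = true ∧ Rel h 1 n m)

theorem Near.symm {h : ℕ → ℕ} {x y : C} (hxy : Near h x y) : Near h y x := by
  obtain ⟨N, h1, h2⟩ := hxy
  exact ⟨N, h2, h1⟩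

theorem lset_true (h : ℕ → ℕ) (c : ℕ) (x : C) (i : ℕ) :
    lset h c x i = true ↔ ∃ n, x n = true ∧ lab h c n = i := by simp [lset]

theorem Deep.sub {h : ℕ → ℕ} {c : ℕ} {x y : C} (hx : Deep h c x) (hyx : Sub y x) :
    Deep h c y := by
  intro k
  obtain ⟨N, hN⟩ := hx k
  exact ⟨N, fun n hn hy => hN n hn (hyx n hy)⟩

theorem lab_le {h : ℕ → ℕ} {c n : ℕ} (hc : c < 2) : lab h c n ≤ n := by
  unfold lab
  have : pr h n ≤ n := Nat.findGreatest_le n
  omega

theorem continuous_lset {h : ℕ → ℕ} (hlt : ∀ n, n < h n) (c : ℕ) : Continuous (lset h c) := by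
  refine continuous_pi fun i => continuous_of_agree _ (ep h (2 * i + 2)) fun x y hxy => ?_
  have h1 : ∀ n, lab h c n = i → n < ep h (2 * i + 2) := by
    intro n hn
    refine (pr_lt hlt).1 ?_
    unfold lab at hn
    omega
  unfold lset
  refine decide_eq_decide.2 (exists_congr fun n => ?_)
  constructor
  · rintro ⟨h2, h3⟩
    exact ⟨by rw [hxy n (h1 n h3)]; exact h2, h3⟩
  · rintro ⟨h2, h3⟩
    exact ⟨by rw [← hxy n (h1 n h3)]; exact h2, h3⟩

theorem Deep.near {h : ℕ → ℕ} (hm : Monotone h) (hlt : ∀ n, n < h n) {c : ℕ} {x y : C}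
    (hx : Deep h c x) (hxy : Near h x y) : Deep h c y := by
  intro k
  obtain ⟨N1, hN1⟩ := hx (k + 1)
  obtain ⟨N, -, hN⟩ := hxy
  refine ⟨max N (h N1 + 1), fun n hn hy m' hm' => ?_⟩
  obtain ⟨m, hxm, hnm⟩ := hN n (le_trans (le_max_left _ _) hn) hy
  have h1 : m ≤ h n := hnm.1
  have h2 : n ≤ h m := hnm.2
  have h3 : N1 ≤ m := by
    by_contra hcon
    have h4 : h m ≤ h N1 := hm (by omega)
    have h5 := le_trans (le_max_right _ _) hn
    omega
  have hit : ∀ a, h^[k + 1] a = h^[k] (h a) := fun a => rfl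
  have hit' : ∀ a, h^[k + 1] a = h (h^[k] a) := fun a => Function.iterate_succ_apply' h k a
  have h4 : Rel h (k + 1) m m' := by
    constructor
    · rw [hit]
      exact hm'.1.trans ((hm.iterate k) h2)
    · rw [hit']
      exact h1.trans (hm hm'.2)
  have h5 : Rel h (k + 1) m n := by
    constructor
    · rw [hit]
      exact h2.trans (le_iter hlt k _)
    · rw [hit']
      exact h1.trans (hm (le_iter hlt k _))
  rw [hN1 m h3 hxm m' h4, hN1 m h3 hxm n h5]

theorem lset_near_aux {h : ℕ → ℕ} {c : ℕ} (hc : c < 2) {x y : C} (hx : Deep h c x)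
    (hxy : Near h x y) : ∃ N, ∀ i, N ≤ i → lset h c x i = true → lset h c y i = true := by
  obtain ⟨N1, hN1⟩ := hx 1
  obtain ⟨N, hN, -⟩ := hxy
  refine ⟨max N N1, fun i hi hxi => ?_⟩
  rw [lset_true] at hxi ⊢
  obtain ⟨n, hn, hni⟩ := hxi
  have h1 : i ≤ n := by rw [← hni]; exact lab_le hc
  have h2 := le_trans (le_max_left _ _) hi
  have h3 := le_trans (le_max_right _ _) hi
  obtain ⟨m, hm, hnm⟩ := hN n (by omega) hn
  exact ⟨m, hm, by rw [hN1 n (by omega) hn m hnm, hni]⟩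

theorem lset_near {h : ℕ → ℕ} (hm : Monotone h) (hlt : ∀ n, n < h n) {c : ℕ} (hc : c < 2)
    {x y : C} (hx : Deep h c x) (hxy : Near h x y) :
    ∃ N, ∀ i, N ≤ i → lset h c x i = lset h c y i := by
  obtain ⟨N1, h1⟩ := lset_near_aux hc hx hxy
  obtain ⟨N2, h2⟩ := lset_near_aux hc (hx.near hm hlt hxy) hxy.symm
  refine ⟨max N1 N2, fun i hi => ?_⟩
  exact Bool.eq_iff_iff.2 ⟨h1 i (le_trans (le_max_left _ _) hi),
    h2 i (le_trans (le_max_right _ _) hi)⟩

/-- each infinite set contains an infinite deep set -/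
theorem exists_deep {h : ℕ → ℕ} (hm : Monotone h) (hlt : ∀ n, n < h n) (K : C) (hK : Inf K) :
    ∃ K', Inf K' ∧ Sub K' K ∧ (Deep h 0 K' ∨ Deep h 1 K') := by
  classical
  have hd : ∀ (c : ℕ) (K' : C), (∀ n, K' n = true → ∀ k m, 2 * k ≤ pr h n + 1 → Rel h k n m →
      lab h c m = lab h c n) → Deep h c K' := by
    intro c K' hK' k
    refine ⟨ep h (2 * k), fun n hn hx m hnm => hK' n hx k m ?_ hnm⟩
    have := (le_pr hlt).2 hn
    omega
  obtain ⟨K0, hK0⟩ : ∃ K0 : C, K0 = fun n => K n && decide (∀ k m, 2 * k ≤ pr h n + 1 →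
    Rel h k n m → lab h 0 m = lab h 0 n) := ⟨_, rfl⟩
  obtain ⟨K1, hK1⟩ : ∃ K1 : C, K1 = fun n => K n && decide (∀ k m, 2 * k ≤ pr h n + 1 →
    Rel h k n m → lab h 1 m = lab h 1 n) := ⟨_, rfl⟩
  have h0 : ∀ n, K0 n = true ↔ K n = true ∧ ∀ k m, 2 * k ≤ pr h n + 1 →
      Rel h k n m → lab h 0 m = lab h 0 n := by
    intro n
    rw [hK0]
    simp only [Bool.and_eq_true, decide_eq_true_iff]
  have h1 : ∀ n, K1 n = true ↔ K n = true ∧ ∀ k m, 2 * k ≤ pr h n + 1 →
      Rel h k n m → lab h 1 m = lab h 1 n := by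
    intro n
    rw [hK1]
    simp only [Bool.and_eq_true, decide_eq_true_iff]
  by_cases hI : Inf K0
  · exact ⟨K0, hI, fun n hn => ((h0 n).1 hn).1, Or.inl (hd 0 K0 fun n hn => ((h0 n).1 hn).2)⟩
  · refine ⟨K1, ?_, fun n hn => ((h1 n).1 hn).1, Or.inr (hd 1 K1 fun n hn => ((h1 n).1 hn).2)⟩
    unfold Inf at hI
    push Not at hI
    obtain ⟨N, hN⟩ := hI
    intro n
    obtain ⟨k, hk, hKk⟩ := hK (max n N)
    refine ⟨k, le_trans (le_max_left _ _) hk, (h1 k).2 ⟨hKk, ?_⟩⟩
    rcases lab_const hm hlt k with h2 | h2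
    · exact absurd ((h0 k).2 ⟨hKk, h2⟩) (hN k (le_trans (le_max_right _ _) hk))
    · exact h2

/-- from a homogeneous set for the labels to a homogeneous set -/
theorem lset_ramsey {h : ℕ → ℕ} (hlt : ∀ n, n < h n) {c : ℕ} (hc : c < 2) {D : Set C} (K : C)
    (hK : Inf K) (hD : (∀ x, Inf x → Sub x K → lset h c x ∈ D) ∨
      (∀ x, Inf x → Sub x K → lset h c x ∉ D)) : Ramsey D := by
  have key : ∀ z, Inf z → Sub z (lset h c K) → ∃ x, Inf x ∧ Sub x K ∧ lset h c x = z := by
    intro z hz hzK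
    refine ⟨fun n => K n && z (lab h c n), ?_, ?_, ?_⟩
    · intro N
      obtain ⟨i, hi, hzi⟩ := hz N
      obtain ⟨n, hn, hni⟩ := (lset_true h c K i).1 (hzK i hzi)
      refine ⟨n, hi.trans ?_, ?_⟩
      · rw [← hni]; exact lab_le hc
      · simp only [hn, hni, hzi, Bool.and_self]
    · intro n hn
      simp only [Bool.and_eq_true] at hn
      exact hn.1
    · funext i
      refine Bool.eq_iff_iff.2 ?_
      rw [lset_true]
      simp only [Bool.and_eq_true]
      constructor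
      · rintro ⟨n, ⟨_, h2⟩, rfl⟩
        exact h2
      · intro hi
        obtain ⟨n, hn, hni⟩ := (lset_true h c K i).1 (hzK i hi)
        exact ⟨n, ⟨hn, by rw [hni]; exact hi⟩, hni⟩
  refine ⟨lset h c K, ?_, ?_⟩
  · intro N
    obtain ⟨n, hn, hKn⟩ := hK (ep h (2 * N))
    refine ⟨lab h c n, ?_, (lset_true h c K _).2 ⟨n, hKn, rfl⟩⟩
    have := (le_pr hlt).2 hn
    unfold lab
    omega
  · rcases hD with h1 | h1
    · left
      intro z hz hzK
      obtain ⟨x, hx, hxK, rfl⟩ := key z hz hzK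
      exact h1 x hx hxK
    · right
      intro z hz hzK
      obtain ⟨x, hx, hxK, rfl⟩ := key z hz hzK
      exact h1 x hx hxK

/-! ### Closed families -/

theorem Closed.inter {F : Set (Set C)} (hF : Closed F) (A : ℕ → Set C) (hA : ∀ n, A n ∈ F) :
    (⋂ n, A n) ∈ F := by
  have h1 := hF.compl _ (hF.union (fun n => (A n)ᶜ) fun n => hF.compl _ (hA n))
  rwa [Set.compl_iUnion, Set.iInter_congr fun n => compl_compl (A n)] at h1

theorem Closed.inter2 {F : Set (Set C)} (hF : Closed F) {A B : Set C} (hA : A ∈ F) (hB : B ∈ F) :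
    A ∩ B ∈ F := by
  have h1 := hF.inter (fun n => if n = 0 then A else B) fun n => by
    split_ifs
    · exact hA
    · exact hB
  have h2 : (⋂ n : ℕ, if n = 0 then A else B) = A ∩ B := by
    ext x
    rw [Set.mem_iInter]
    constructor
    · intro h
      exact ⟨by simpa using h 0, by simpa using h 1⟩
    · rintro ⟨h3, h4⟩ n
      split_ifs
      · exact h3
      · exact h4
  rwa [h2] at h1

theorem Closed.union2 {F : Set (Set C)} (hF : Closed F) {A B : Set C} (hA : A ∈ F) (hB : B ∈ F) :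
    A ∪ B ∈ F := by
  have h1 := hF.compl _ (hF.inter2 (hF.compl _ hA) (hF.compl _ hB))
  rwa [Set.compl_inter, compl_compl, compl_compl] at h1

theorem Closed.point_mem {F : Set (Set C)} (hF : Closed F) {D : Set C} (hD : D ∈ F) {a b : C}
    (ha : a ∈ D) (hb : b ∉ D) (n : ℕ) : {x : C | x n = true} ∈ F := by
  have hc : Continuous fun x : C => fun k => if x n = true then a k else b k := by
    refine continuous_pi fun k => continuous_of_agree _ (n + 1) fun x y hxy => ?_
    rw [hxy n (Nat.lt_succ_self n)]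
  have h1 := hF.preimage D hD _ hc
  convert h1 using 1
  ext x
  by_cases hx : x n = true
  · simp only [Set.mem_ofPred_eq, Set.mem_preimage, hx, if_true]
    exact ⟨fun _ => ha, fun _ => trivial⟩
  · simp only [Set.mem_ofPred_eq, Set.mem_preimage, hx, if_false]
    exact ⟨fun h => absurd h (by decide), fun h => absurd h hb⟩

theorem Closed.deep_mem {F : Set (Set C)} (hF : Closed F) {D : Set C} (hD : D ∈ F) {a b : C}
    (ha : a ∈ D) (hb : b ∉ D) (h : ℕ → ℕ) (c : ℕ) : {x : C | Deep h c x} ∈ F := by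
  classical
  have huniv : (Set.univ : Set C) ∈ F := by
    have := hF.compl _ (hF.empty_mem hD)
    rwa [Set.compl_empty] at this
  have h1 : {x : C | Deep h c x} = ⋂ k, ⋃ N, ⋂ n, if N ≤ n ∧ ∃ m, Rel h k n m ∧
      lab h c m ≠ lab h c n then {x : C | x n = true}ᶜ else Set.univ := by
    ext x
    simp only [Set.mem_iInter, Set.mem_iUnion, Set.mem_ofPred_eq]
    refine forall_congr' fun k => exists_congr fun N => forall_congr' fun n => ?_
    split_ifs with h2
    · obtain ⟨h3, m, h4, h5⟩ := h2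
      constructor
      · intro h6 h7
        exact h5 (h6 h3 h7 m h4)
      · intro h6 _ h7
        exact absurd h7 h6
    · refine ⟨fun _ => Set.mem_univ _, fun _ h3 _ m h4 => ?_⟩
      by_contra h5
      exact h2 ⟨h3, m, h4, h5⟩
  rw [h1]
  refine hF.inter _ fun k => hF.union _ fun N => hF.inter _ fun n => ?_
  split_ifs
  · exact hF.compl _ (hF.point_mem hD ha hb n)
  · exact huniv

/-- **Theorem, second part, for one scale.** -/
theorem near_reduction {h : ℕ → ℕ} (hm : Monotone h) (hlt : ∀ n, n < h n) (F : Set (Set C))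
    (hF : Closed F)
    (hinv : ∀ B ∈ F, (∀ x y : C, Inf x → Inf y → Near h x y → (x ∈ B ↔ y ∈ B)) → Ramsey B)
    {A : Set C} (hA : A ∈ F) : Ramsey A := by
  classical
  refine tail_reduction hF (fun D hD hT _ => ?_) hA
  by_contra hnR
  have hone : Inf fun _ => true := fun n => ⟨n, le_rfl, rfl⟩
  obtain ⟨a, ha⟩ : ∃ a, a ∈ D := by
    by_contra hcon
    push Not at hcon
    exact hnR ⟨fun _ => true, hone, Or.inr fun x _ _ => hcon x⟩
  obtain ⟨b, hb⟩ : ∃ b, b ∉ D := by
    by_contra hcon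
    push Not at hcon
    exact hnR ⟨fun _ => true, hone, Or.inl fun x _ _ => hcon x⟩
  obtain ⟨B, hB⟩ : ∃ B : Set C, B = ({x : C | Deep h 0 x} ∩ lset h 0 ⁻¹' D) ∪
    ({x : C | Deep h 0 x}ᶜ ∩ ({x : C | Deep h 1 x} ∩ lset h 1 ⁻¹' D)) := ⟨_, rfl⟩
  have hd := fun c => hF.deep_mem hD ha hb h c
  have hBF : B ∈ F := by
    rw [hB]
    exact hF.union2 (hF.inter2 (hd 0) (hF.preimage D hD _ (continuous_lset hlt 0)))
      (hF.inter2 (hF.compl _ (hd 0)) (hF.inter2 (hd 1)
        (hF.preimage D hD _ (continuous_lset hlt 1))))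
  have hB1 : ∀ x, Deep h 0 x → (x ∈ B ↔ lset h 0 x ∈ D) := by
    intro x hx
    rw [hB]
    constructor
    · rintro (h1 | h1)
      · exact h1.2
      · exact absurd hx h1.1
    · exact fun h1 => Or.inl ⟨hx, h1⟩
  have hB2 : ∀ x, ¬ Deep h 0 x → Deep h 1 x → (x ∈ B ↔ lset h 1 x ∈ D) := by
    intro x hx hx'
    rw [hB]
    constructor
    · rintro (h1 | h1)
      · exact absurd h1.1 hx
      · exact h1.2.2
    · exact fun h1 => Or.inr ⟨hx, hx', h1⟩
  have hB3 : ∀ x, ¬ Deep h 0 x → ¬ Deep h 1 x → x ∉ B := by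
    intro x hx hx' h1
    rw [hB] at h1
    rcases h1 with h1 | h1
    · exact hx h1.1
    · exact hx' h1.2.1
  have hcoarse : ∀ x y : C, Near h x y → (x ∈ B ↔ y ∈ B) := by
    intro x y hxy
    have hdd : ∀ c, Deep h c x ↔ Deep h c y := fun c =>
      ⟨fun h1 => h1.near hm hlt hxy, fun h1 => h1.near hm hlt hxy.symm⟩
    by_cases h0 : Deep h 0 x
    · rw [hB1 x h0, hB1 y ((hdd 0).1 h0)]
      exact hT _ _ (lset_near hm hlt (by omega) h0 hxy)
    · have h0' : ¬ Deep h 0 y := fun h1 => h0 ((hdd 0).2 h1)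
      by_cases h1 : Deep h 1 x
      · rw [hB2 x h0 h1, hB2 y h0' ((hdd 1).1 h1)]
        exact hT _ _ (lset_near hm hlt (by omega) h1 hxy)
      · have h1' : ¬ Deep h 1 y := fun h2 => h1 ((hdd 1).2 h2)
        exact ⟨fun h2 => absurd h2 (hB3 x h0 h1), fun h2 => absurd h2 (hB3 y h0' h1')⟩
  obtain ⟨K, hK, hKB⟩ := hinv B hBF fun x y _ _ hxy => hcoarse x y hxy
  apply hnR
  by_cases hex : ∃ K', Inf K' ∧ Sub K' K ∧ Deep h 0 K'
  · obtain ⟨K', hK', hK'K, hK'd⟩ := hex
    refine lset_ramsey hlt (c := 0) (by omega) K' hK' ?_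
    rcases hKB with h1 | h1
    · exact Or.inl fun x hx hxK => (hB1 x (hK'd.sub hxK)).1 (h1 x hx (hxK.trans hK'K))
    · exact Or.inr fun x hx hxK h2 => h1 x hx (hxK.trans hK'K) ((hB1 x (hK'd.sub hxK)).2 h2)
  · push Not at hex
    obtain ⟨K', hK', hK'K, hK'd⟩ := exists_deep hm hlt K hK
    have hK'1 : Deep h 1 K' := hK'd.resolve_left (hex K' hK' hK'K)
    refine lset_ramsey hlt (c := 1) (by omega) K' hK' ?_
    have h0 : ∀ x, Inf x → Sub x K' → ¬ Deep h 0 x := fun x hx hxK =>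
      hex x hx (hxK.trans hK'K)
    rcases hKB with h1 | h1
    · exact Or.inl fun x hx hxK =>
        (hB2 x (h0 x hx hxK) (hK'1.sub hxK)).1 (h1 x hx (hxK.trans hK'K))
    · exact Or.inr fun x hx hxK h2 =>
        h1 x hx (hxK.trans hK'K) ((hB2 x (h0 x hx hxK) (hK'1.sub hxK)).2 h2)

/-- **Theorem, second part.** -/
theorem coarse_bounded (G : Set (ℕ → ℕ)) (h₀ : ℕ → ℕ)
    (hG : ∀ g ∈ G, ∃ N, ∀ n, N ≤ n → g n ≤ h₀ n) (F : Set (Set C)) (hF : Closed F)
    (hinv : ∀ B ∈ F, (∀ g ∈ G, ∀ x y : C, Inf x → Inf y →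
      (∃ N, (∀ n, N ≤ n → x n = true → ∃ m, y m = true ∧ m ≤ max n (g n) ∧ n ≤ max m (g m)) ∧
        (∀ n, N ≤ n → y n = true → ∃ m, x m = true ∧ m ≤ max n (g n) ∧ n ≤ max m (g m))) →
      (x ∈ B ↔ y ∈ B)) → Ramsey B)
    {A : Set C} (hA : A ∈ F) : Ramsey A := by
  obtain ⟨h, hh⟩ : ∃ h : ℕ → ℕ, h = fun n => n + 1 + ∑ i ∈ Finset.range (n + 1), h₀ i := ⟨_, rfl⟩
  have hlt : ∀ n, n < h n := fun n => by rw [hh]; dsimp only; omega
  have hm : Monotone h := monotone_nat_of_le_succ fun n => by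
    rw [hh]
    dsimp only
    rw [Finset.sum_range_succ _ (n + 1)]
    omega
  have hle : ∀ n, h₀ n ≤ h n := fun n => by
    rw [hh]
    dsimp only
    rw [Finset.sum_range_succ]
    omega
  refine near_reduction hm hlt F hF (fun B hB hBinv => hinv B hB ?_) hA
  intro g hg x y hx hy hxy
  refine hBinv x y hx hy ?_
  obtain ⟨Ng, hNg⟩ := hG g hg
  obtain ⟨N, h1, h2⟩ := hxy
  have key : ∀ n m, Ng + N + ∑ i ∈ Finset.range Ng, g i < n → m ≤ max n (g n) →
      n ≤ max m (g m) → Rel h 1 n m := by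
    intro n m hn hmn hnm
    have h3 : ∀ i, Ng ≤ i → max i (g i) ≤ h i := fun i hi =>
      max_le (hlt i).le ((hNg i hi).trans (hle i))
    refine ⟨hmn.trans (h3 n (by omega)), hnm.trans (h3 m ?_)⟩
    by_contra hcon
    push Not at hcon
    have h4 : g m ≤ ∑ i ∈ Finset.range Ng, g i :=
      Finset.single_le_sum (f := fun i => g i) (fun _ _ => Nat.zero_le _) (Finset.mem_range.2 hcon)
    rcases le_max_iff.1 hnm with h5 | h5
    · omega
    · omega
  refine ⟨Ng + N + ∑ i ∈ Finset.range Ng, g i + 1, fun n hn hxn => ?_, fun n hn hyn => ?_⟩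
  · obtain ⟨m, h3, h4, h5⟩ := h1 n (by omega) hxn
    exact ⟨m, h3, key n m (by omega) h4 h5⟩
  · obtain ⟨m, h3, h4, h5⟩ := h2 n (by omega) hyn
    exact ⟨m, h3, key n m (by omega) h4 h5⟩

end Pool.Agent.Work.RamseyAD
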