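import Pool.Agent.Work.MP_f36782_h82.KSigma

set_option autoImplicit false

/-!
Sets which are invariant under the coarse relation of an unbounded set of functions are Ramsey.
-/

namespace Pool.Agent.Work.RamseyAD

/-- The player who chooses every third term of an increasing sequence of elements of `X` can avoid
a set which has no homogeneous set below `X`. -/
theorem avoid {A : Set C} (hdet : ∀ f : (ℕ → ℕ) → (ℕ → ℕ), Continuous f → (∀ z, StrictMono (f z)) →
      Determined {z | Set.range (f z) ∈ {S : Set ℕ | chi (∅ ∪ S) ∈ A}})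
    {X : C} (hX : Inf X) (hno : ∀ H, Inf H → Sub H X → ∃ x, Inf x ∧ Sub x H ∧ x ∉ A)
    (r : ℕ) (hr : r < 3) :
    ∃ τ : List ℕ → ℕ, ∀ z : ℕ → ℕ, (∀ n, z (2 * n + 1) = τ (hist z (2 * n + 1))) →
      chi (Set.range fun n => enum X (outcome {n | n % 3 = r} z (3 * n + r))) ∉ A := by
  classical
  have ha : StrictMono fun n => 3 * n + r := fun i j hij => by dsimp only; omega
  have hrange : Set.range (fun n => 3 * n + r) = {n | n % 3 = r} := by
    ext n
    constructor
    · rintro ⟨k, rfl⟩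
      show (3 * k + r) % 3 = r
      omega
    · intro h
      have h1 : n % 3 = r := h
      exact ⟨n / 3, by dsimp only; omega⟩
  obtain ⟨τ, hτ⟩ := force {S : Set ℕ | chi (∅ ∪ S) ∈ A} hdet (fun n => 3 * n + r) ha (enum X)
    (enum_strictMono hX) (by
      intro g hg
      have hmono : StrictMono (enum X ∘ g) := (enum_strictMono hX).comp hg
      obtain ⟨x, hx, hxs, hxA⟩ := hno (chi (Set.range (enum X ∘ g)))
        (chi_inf (Set.infinite_range_of_injective hmono.injective)) (by
          intro k hk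
          obtain ⟨i, rfl⟩ := (chi_eq_true _ k).1 hk
          exact enum_mem hX _)
      obtain ⟨k, hk, hky⟩ := enum_sub (enum X ∘ g) {i | x i = true}
        (fun i hi => (chi_eq_true _ i).1 (hxs i hi)) (infinite_of_Inf hx)
      refine ⟨k, hk, ?_⟩
      have h3 : enum X ∘ g ∘ k = (enum X ∘ g) ∘ k := rfl
      rw [h3, hky]
      show chi (∅ ∪ {i | x i = true}) ∉ A
      rw [Set.empty_union, chi_self]
      exact hxA)
  refine ⟨τ, fun z hz => ?_⟩
  have h1 := hτ z hz
  rw [hrange] at h1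
  intro h2
  apply h1
  show chi (∅ ∪ _) ∈ A
  rw [Set.empty_union]
  exact h2

/-- **Theorem, first part.** -/
theorem coarse_unbounded (G : Set (ℕ → ℕ))
    (hdetG : ∀ f : (ℕ → ℕ) → (ℕ → ℕ), Continuous f → Determined (f ⁻¹' G))
    (hunb : ¬ ∃ h : ℕ → ℕ, ∀ g ∈ G, ∃ N, ∀ n, N ≤ n → g n ≤ h n) (A : Set C)
    (hdet : ∀ f : (ℕ → ℕ) → C, Continuous f → Determined (f ⁻¹' A))
    (hA : ∀ g ∈ G, ∀ x y : ℕ → ℕ, StrictMono x → StrictMono y →
      (∀ i, x i < y i ∧ y i ≤ g (x i)) → (chi (Set.range x) ∈ A ↔ chi (Set.range y) ∈ A))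
    (X : C) (hX : Inf X) :
    ∃ H, Inf H ∧ Sub H X ∧
      ((∀ x, Inf x → Sub x H → x ∈ A) ∨ (∀ x, Inf x → Sub x H → x ∉ A)) := by
  classical
  by_contra hno
  push Not at hno
  obtain ⟨τ0, h0⟩ := ksigma (enum X) G hdetG hunb
  obtain ⟨τ1, h1⟩ := avoid (A := A) (fun f hf hm => det_chi hdet ∅ f hf hm) hX
    (fun H hH hHX => (hno H hH hHX).1) 1 (by omega)
  obtain ⟨τ2, h2⟩ := avoid (A := Aᶜ) (fun f hf hm => det_chi_compl hdet ∅ f hf hm) hX
    (fun H hH hHX => by
      obtain ⟨x, hx, hxH, hxA⟩ := (hno H hH hHX).2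
      exact ⟨x, hx, hxH, fun h => h hxA⟩) 2 (by omega)
  obtain ⟨w, hw⟩ := together (fun i _ => if i = 0 then τ0 else if i = 1 then τ1 else τ2)
    (fun _ _ => true) (fun i => {n | n % 3 = i}) (fun n => n % 3) (fun _ => 0)
    (fun i n => Iff.rfl) (fun i n _ => Nat.zero_le n)
  obtain ⟨u, hu⟩ : ∃ u : ℕ → ℕ, u = cum w := ⟨_, rfl⟩
  have hum : StrictMono u := by rw [hu]; exact cum_strictMono w
  obtain ⟨z0, hz0, hz0u⟩ := hw 0
  obtain ⟨z1, hz1, hz1u⟩ := hw 1
  obtain ⟨z2, hz2, hz2u⟩ := hw 2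
  have hg : phi (enum X) u ∈ G := by
    have := h0 z0 hz0
    rwa [hz0u, ← hu] at this
  have hx : chi (Set.range fun n => enum X (u (3 * n + 1))) ∉ A := by
    have := h1 z1 hz1
    rwa [hz1u, ← hu] at this
  have hy : chi (Set.range fun n => enum X (u (3 * n + 2))) ∈ A := by
    have := h2 z2 hz2
    rw [hz2u, ← hu] at this
    exact not_not.1 this
  have he : StrictMono (enum X) := enum_strictMono hX
  obtain ⟨m, hm⟩ : ∃ m : ℕ → ℕ, m = fun j => (flat (enum X) u (j + 1)).length := ⟨_, rfl⟩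
  have hms : ∀ j, m (j + 1) = m j + (bl (enum X) u (j + 1)).length := by
    intro j
    rw [hm]
    exact List.length_append
  have hbl : ∀ j, (bl (enum X) u (j + 1)).length =
      (dec (Nat.unpair (u (3 * (j + 1)) - u (3 * j + 2) - 1)).2).length + 1 := by
    intro j
    rw [bl_add_one, List.length_cons]
  have hmm : StrictMono m := strictMono_nat_of_lt_succ fun j => by
    rw [hms, hbl]
    omega
  have hmu : ∀ j, m j ≤ u (3 * j) := by
    intro j
    induction j with
    | zero =>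
      rw [hm]
      show ([] ++ dec (u 0)).length ≤ u 0
      rw [List.nil_append]
      exact length_dec _
    | succ j ih =>
      rw [hms, hbl]
      have h3 := length_dec (Nat.unpair (u (3 * (j + 1)) - u (3 * j + 2) - 1)).2
      have h4 := Nat.unpair_right_le (u (3 * (j + 1)) - u (3 * j + 2) - 1)
      have h5 : u (3 * j) < u (3 * j + 2) := hum (by omega)
      have h6 : u (3 * j + 2) < u (3 * (j + 1)) := hum (by omega)
      omega
  have hgm : ∀ j, enum X (u (3 * j + 2)) ≤ phi (enum X) u (m j) := by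
    intro j
    have h3 : m j < (flat (enum X) u (j + 1 + 1)).length := by
      have h4 : (flat (enum X) u (j + 1 + 1)).length = m (j + 1) := by rw [hm]
      rw [h4]
      exact hmm (Nat.lt_succ_self j)
    rw [← phi_eq _ _ _ _ h3]
    show _ ≤ (flat (enum X) u (j + 1) ++ bl (enum X) u (j + 1)).getD (m j) 0
    rw [List.getD_append_right _ _ _ _ (by rw [hm]), bl_add_one]
    have h5 : m j - (flat (enum X) u (j + 1)).length = 0 := by rw [hm]; exact Nat.sub_self _
    rw [h5]
    simp only [List.getD_cons_zero]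
    omega
  have hxm : ∀ j, m j < enum X (u (3 * j + 1)) := fun j =>
    lt_of_lt_of_le (lt_of_le_of_lt (hmu j) (hum (by omega))) he.le_apply
  have hym : ∀ j, m j < enum X (u (3 * j + 2)) := fun j =>
    lt_of_lt_of_le (lt_of_le_of_lt (hmu j) (hum (by omega))) he.le_apply
  have hxy : ∀ j, enum X (u (3 * j + 1)) ≤ enum X (u (3 * j + 2)) := fun j =>
    he.monotone (hum.monotone (by omega))
  have h3 := hA _ hg m (fun n => enum X (u (3 * n + 1))) hmm
    (fun i j hij => he (hum (by omega))) (fun i => ⟨hxm i, (hxy i).trans (hgm i)⟩)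
  have h4 := hA _ hg m (fun n => enum X (u (3 * n + 2))) hmm
    (fun i j hij => he (hum (by omega))) (fun i => ⟨hym i, hgm i⟩)
  exact hx (h3.1 (h4.2 hy))

end Pool.Agent.Work.RamseyAD
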