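import Pool.Agent.Work.MP_f36782_h82.Countable

set_option autoImplicit false

/-!
If all sets in a closed determined family which are invariant under an equivalence relation covered
by countably many closed relations `K n`, such that finite sets are isolated in the sections of
`K n` at finite sets, are Ramsey then all sets in the family are Ramsey.
-/

namespace Pool.Agent.Work.RamseyAD

/-- sections of a closed relation are upper semicontinuous -/
theorem exists_section_bound (K : Set (C × C)) (hK : IsClosed K) (w : C) (m : ℕ) :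
    ∃ u, ∀ x y : C, (x, y) ∈ K → (∀ i, i < u → x i = w i) →
      ∃ y', (w, y') ∈ K ∧ ∀ q, q ≤ m → y' q = y q := by
  classical
  have h1 : ∀ s : Finset ℕ, ∃ u, ∀ x y : C, (x, y) ∈ K → (∀ q, q ≤ m → y q = ind s q) →
      (∀ i, i < u → x i = w i) → ∃ y', (w, y') ∈ K ∧ ∀ q, q ≤ m → y' q = ind s q := by
    intro s
    by_cases hw : ∃ y', (w, y') ∈ K ∧ ∀ q, q ≤ m → y' q = ind s q
    · exact ⟨0, fun _ _ _ _ _ => hw⟩
    · have hpat : IsClosed {p : C × C | ∀ q, q ≤ m → p.2 q = ind s q} := by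
        have h2 : {p : C × C | ∀ q, q ≤ m → p.2 q = ind s q} =
            ⋂ q : ℕ, {p : C × C | q ≤ m → p.2 q = ind s q} := by
          ext p
          simp only [Set.mem_iInter, Set.mem_ofPred_eq]
        rw [h2]
        refine isClosed_iInter fun q => ?_
        by_cases hq : q ≤ m
        · have h3 : {p : C × C | q ≤ m → p.2 q = ind s q} =
              (fun p : C × C => p.2 q) ⁻¹' {ind s q} := by
            ext p
            simp only [Set.mem_ofPred_eq, Set.mem_preimage, Set.mem_singleton_iff]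
            exact ⟨fun h => h hq, fun h _ => h⟩
          rw [h3]
          exact (isClosed_discrete _).preimage ((continuous_apply q).comp continuous_snd)
        · have h3 : {p : C × C | q ≤ m → p.2 q = ind s q} = Set.univ := by
            rw [Set.eq_univ_iff_forall]
            exact fun p h => absurd h hq
          rw [h3]
          exact isClosed_univ
      have hcl : IsClosed (Prod.fst '' (K ∩ {p : C × C | ∀ q, q ≤ m → p.2 q = ind s q})) :=
        ((hK.inter hpat).isCompact.image continuous_fst).isClosed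
      have hwn : w ∈ (Prod.fst '' (K ∩ {p : C × C | ∀ q, q ≤ m → p.2 q = ind s q}))ᶜ := by
        rintro ⟨⟨x, y⟩, ⟨h3, h4⟩, h5⟩
        have h6 : x = w := h5
        rw [h6] at h3
        exact hw ⟨y, h3, h4⟩
      obtain ⟨u, hu⟩ := (isOpen_iff_agree _).1 hcl.isOpen_compl w hwn
      refine ⟨u, fun x y hxy hy hx => ?_⟩
      exact absurd ⟨(x, y), ⟨hxy, hy⟩, rfl⟩ (hu x hx)
  choose u hu using h1
  refine ⟨(Finset.range (m + 1)).powerset.sup u, fun x y hxy hx => ?_⟩
  obtain ⟨s, hs⟩ : ∃ s : Finset ℕ, s = (Finset.range (m + 1)).filter fun i => y i = true :=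
    ⟨_, rfl⟩
  have hys : ∀ q, q ≤ m → y q = ind s q := by
    intro q hq
    refine Bool.eq_iff_iff.2 ?_
    unfold ind
    rw [decide_eq_true_iff, hs, Finset.mem_filter, Finset.mem_range]
    exact ⟨fun h => ⟨Nat.lt_succ_of_le hq, h⟩, fun h => h.2⟩
  have hle : u s ≤ (Finset.range (m + 1)).powerset.sup u :=
    Finset.le_sup (Finset.mem_powerset.2 (by rw [hs]; exact Finset.filter_subset _ _))
  obtain ⟨y', h2, h3⟩ := hu s x y hxy hys fun i hi => hx i (lt_of_lt_of_le hi hle)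
  exact ⟨y', h2, fun q hq => by rw [h3 q hq, hys q hq]⟩

/-- the scale of a sequence of closed relations -/
theorem exists_scale2 (K : ℕ → Set (C × C)) (hK : ∀ n, IsClosed (K n))
    (hiso : ∀ n (s t : Finset ℕ), ∃ v, ∀ y, (ind s, y) ∈ K n → (∀ i, i < v → y i = ind t i) →
      y = ind t) :
    ∃ h : ℕ → ℕ, Monotone h ∧ (∀ n, n < h n) ∧
      (∀ m j (s : Finset ℕ), j ≤ m → s ⊆ Finset.range (m + 1) → ∀ x y, (x, y) ∈ K j →
        (∀ i, i < h m → x i = ind s i) → ∃ y', (ind s, y') ∈ K j ∧ ∀ q, q ≤ m → y' q = y q) ∧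
      (∀ m j (s t : Finset ℕ), j ≤ m → s ⊆ Finset.range (m + 1) → t ⊆ Finset.range (m + 1) →
        ∀ y, (ind s, y) ∈ K j → (∀ i, i < h m → y i = ind t i) → y = ind t) := by
  classical
  have hu := fun (m j : ℕ) (s : Finset ℕ) => exists_section_bound (K j) (hK j) (ind s) m
  choose u hu using hu
  choose v hv using hiso
  obtain ⟨a, ha⟩ : ∃ a : ℕ → ℕ, a = fun m => (∑ j ∈ Finset.range (m + 1),
      ∑ s ∈ (Finset.range (m + 1)).powerset, u m j s) + ∑ j ∈ Finset.range (m + 1),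
      ∑ s ∈ (Finset.range (m + 1)).powerset, ∑ t ∈ (Finset.range (m + 1)).powerset, v j s t :=
    ⟨_, rfl⟩
  obtain ⟨h, hh⟩ : ∃ h : ℕ → ℕ, h = fun m => m + 1 + ∑ i ∈ Finset.range (m + 1), a i := ⟨_, rfl⟩
  have hah : ∀ m, a m ≤ h m := by
    intro m
    have h1 : a m ≤ ∑ i ∈ Finset.range (m + 1), a i :=
      Finset.single_le_sum (f := fun i => a i) (fun _ _ => Nat.zero_le _)
        (Finset.mem_range.2 (Nat.lt_succ_self m))
    rw [hh]
    dsimp only
    omega
  have hua : ∀ m j (s : Finset ℕ), j ≤ m → s ⊆ Finset.range (m + 1) → u m j s ≤ a m := by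
    intro m j s hj hs
    have h1 : u m j s ≤ ∑ s ∈ (Finset.range (m + 1)).powerset, u m j s :=
      Finset.single_le_sum (f := fun s => u m j s) (fun _ _ => Nat.zero_le _)
        (Finset.mem_powerset.2 hs)
    have h2 : ∑ s ∈ (Finset.range (m + 1)).powerset, u m j s ≤
        ∑ j ∈ Finset.range (m + 1), ∑ s ∈ (Finset.range (m + 1)).powerset, u m j s :=
      Finset.single_le_sum (f := fun j => ∑ s ∈ (Finset.range (m + 1)).powerset, u m j s)
        (fun _ _ => Nat.zero_le _) (Finset.mem_range.2 (Nat.lt_succ_of_le hj))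
    rw [ha]
    dsimp only
    omega
  have hva : ∀ m j (s t : Finset ℕ), j ≤ m → s ⊆ Finset.range (m + 1) →
      t ⊆ Finset.range (m + 1) → v j s t ≤ a m := by
    intro m j s t hj hs ht
    have h0 : v j s t ≤ ∑ t ∈ (Finset.range (m + 1)).powerset, v j s t :=
      Finset.single_le_sum (f := fun t => v j s t) (fun _ _ => Nat.zero_le _)
        (Finset.mem_powerset.2 ht)
    have h1 : ∑ t ∈ (Finset.range (m + 1)).powerset, v j s t ≤
        ∑ s ∈ (Finset.range (m + 1)).powerset, ∑ t ∈ (Finset.range (m + 1)).powerset, v j s t :=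
      Finset.single_le_sum (f := fun s => ∑ t ∈ (Finset.range (m + 1)).powerset, v j s t)
        (fun _ _ => Nat.zero_le _) (Finset.mem_powerset.2 hs)
    have h2 : ∑ s ∈ (Finset.range (m + 1)).powerset,
        ∑ t ∈ (Finset.range (m + 1)).powerset, v j s t ≤ ∑ j ∈ Finset.range (m + 1),
        ∑ s ∈ (Finset.range (m + 1)).powerset, ∑ t ∈ (Finset.range (m + 1)).powerset, v j s t :=
      Finset.single_le_sum (f := fun j => ∑ s ∈ (Finset.range (m + 1)).powerset,
        ∑ t ∈ (Finset.range (m + 1)).powerset, v j s t)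
        (fun _ _ => Nat.zero_le _) (Finset.mem_range.2 (Nat.lt_succ_of_le hj))
    rw [ha]
    dsimp only
    omega
  refine ⟨h, ?_, ?_, ?_, ?_⟩
  · refine monotone_nat_of_le_succ fun n => ?_
    rw [hh]
    dsimp only
    rw [Finset.sum_range_succ _ (n + 1)]
    omega
  · intro n
    rw [hh]
    dsimp only
    omega
  · intro m j s hj hs x y hxy hx
    exact hu m j s x y hxy fun i hi =>
      hx i (lt_of_lt_of_le hi ((hua m j s hj hs).trans (hah m)))
  · intro m j s t hj hs ht y hy hyt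
    exact hv j s t y hy fun i hi =>
      hyt i (lt_of_lt_of_le hi ((hva m j s t hj hs ht).trans (hah m)))

section

variable {K : ℕ → Set (C × C)} {h : ℕ → ℕ} (hm : Monotone h) (hlt : ∀ n, n < h n)
  (h1 : ∀ m j (s : Finset ℕ), j ≤ m → s ⊆ Finset.range (m + 1) → ∀ x y, (x, y) ∈ K j →
        (∀ i, i < h m → x i = ind s i) → ∃ y', (ind s, y') ∈ K j ∧ ∀ q, q ≤ m → y' q = y q)
  (h2 : ∀ m j (s t : Finset ℕ), j ≤ m → s ⊆ Finset.range (m + 1) →
        t ⊆ Finset.range (m + 1) →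
        ∀ y, (ind s, y) ∈ K j → (∀ i, i < h m → y i = ind t i) → y = ind t)

include hlt h1 h2

/-- a gap of `y` before `n` is not a gap of `x` -/
theorem no_gap2 {x y : C} {j a n : ℕ} (hj : j ≤ a) (hxy : (x, y) ∈ K j)
    (hya : ∀ q, a ≤ q → q < n → y q = false) (hyn : y n = true)
    (hxa : ∀ q, a ≤ q → q < h n → x q = false) (hn : h a ≤ n) : False := by
  classical
  have haa : a < h a := hlt a
  have hfin : ∀ (z : C) (N : ℕ), (∀ q, a ≤ q → q < N → z q = false) →
      ∃ s : Finset ℕ, s ⊆ Finset.range (a + 1) ∧ ∀ i, i < N → z i = ind s i := by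
    intro z N hz
    refine ⟨(Finset.range a).filter fun i => z i = true, ?_, fun i hi => ?_⟩
    · intro i hi
      have h3 := Finset.mem_range.1 (Finset.mem_filter.1 hi).1
      exact Finset.mem_range.2 (by omega)
    · refine Bool.eq_iff_iff.2 ?_
      unfold ind
      rw [decide_eq_true_iff, Finset.mem_filter, Finset.mem_range]
      constructor
      · intro h3
        refine ⟨?_, h3⟩
        by_contra h4
        rw [hz i (not_lt.1 h4) hi] at h3
        exact absurd h3 (by decide)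
      · exact fun h3 => h3.2
  obtain ⟨s, hs, hxs⟩ := hfin x (h n) hxa
  obtain ⟨t, ht, hyt⟩ := hfin y n hya
  have hsn : s ⊆ Finset.range (n + 1) := fun i hi => by
    have := Finset.mem_range.1 (hs hi)
    exact Finset.mem_range.2 (by omega)
  obtain ⟨y', h3, h4⟩ := h1 n j s (by omega) hsn x y hxy hxs
  have h5 : y' = ind t := h2 a j s t hj hs ht y' h3 fun i hi => by
    rw [h4 i (by omega), hyt i (by omega)]
  have h6 : y' n = true := by rw [h4 n le_rfl]; exact hyn
  rw [h5] at h6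
  unfold ind at h6
  rw [decide_eq_true_iff] at h6
  have := Finset.mem_range.1 (ht h6)
  omega

include hm

/-- the elements of a sparse set are close to the elements of the equivalent sets -/
theorem cover2 {x y : C} {j : ℕ} (hxy : (x, y) ∈ K j)
    (hsp : ∀ k k', y k = true → y k' = true → k < k' → h (h k) ≤ k') (n : ℕ)
    (hn : h j ≤ n) (hyn : y n = true) :
    ∃ m, x m = true ∧ Rel (fun k => h (h k)) 1 n m := by
  classical
  by_contra hcon
  push Not at hcon
  have hle : ∀ k, k ≤ h k := fun k => (hlt k).le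
  have hx : ∀ m, x m = true → m < h n → h (h m) ≤ n := by
    intro m hxm hmn
    by_contra h3
    refine hcon m hxm ⟨?_, ?_⟩
    · exact hmn.le.trans (hle _)
    · exact (not_le.1 h3).le
  obtain ⟨S, hS⟩ : ∃ S : Finset ℕ, S = (Finset.range (h n)).filter fun q =>
    x q = true ∨ (y q = true ∧ q < n) := ⟨_, rfl⟩
  have hSm : ∀ q, q ∈ S ↔ q < h n ∧ (x q = true ∨ (y q = true ∧ q < n)) := by
    intro q
    rw [hS, Finset.mem_filter, Finset.mem_range]
  obtain ⟨a, ha⟩ : ∃ a, a = max j (S.sup fun q => q + 1) := ⟨_, rfl⟩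
  have haS : ∀ q ∈ S, q < a := by
    intro q hq
    have h3 : q + 1 ≤ S.sup fun q => q + 1 := Finset.le_sup (f := fun q => q + 1) hq
    have h4 := le_max_right j (S.sup fun q => q + 1)
    omega
  have hmax : ∀ b c, h b ≤ n → h c ≤ n → h (max b c) ≤ n := by
    intro b c hb hc
    rcases le_total b c with h3 | h3
    · rw [max_eq_right h3]; exact hc
    · rw [max_eq_left h3]; exact hb
  have hha : h a ≤ n := by
    rw [ha]
    refine hmax _ _ hn ?_
    refine Finset.sup_induction (p := fun b => h b ≤ n) ?_ (fun b hb c hc => hmax b c hb hc) ?_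
    · exact (hm (Nat.zero_le _)).trans hn
    · intro q hq
      have h3 : h (q + 1) ≤ h (h q) := hm (hlt q)
      refine h3.trans ?_
      rcases ((hSm q).1 hq).2 with h4 | h4
      · exact hx q h4 ((hSm q).1 hq).1
      · exact hsp q n h4.1 hyn h4.2
  have hia := le_max_left j (S.sup fun q => q + 1)
  refine no_gap2 hlt h1 h2 (a := a) (by omega) hxy ?_ hyn ?_ hha
  · intro q hq hqn
    rw [← Bool.not_eq_true]
    intro h3
    have := haS q ((hSm q).2 ⟨hqn.trans (hlt n), Or.inr ⟨h3, hqn⟩⟩)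
    omega
  · intro q hq hqn
    rw [← Bool.not_eq_true]
    intro h3
    have := haS q ((hSm q).2 ⟨hqn, Or.inl h3⟩)
    omega

end

/-- **Theorem, third part, general form.** -/
theorem sigma_reduction (E : C → C → Prop) (hE : Equivalence E) (K : ℕ → Set (C × C))
    (hK : ∀ n, IsClosed (K n)) (hEK : ∀ x y, Inf x → Inf y → E x y → ∃ n, (x, y) ∈ K n)
    (hiso : ∀ n (s t : Finset ℕ), ∃ v, ∀ y, (ind s, y) ∈ K n → (∀ i, i < v → y i = ind t i) →
      y = ind t) (F : Set (Set C))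
    (hF : Closed F) (hsat : ∀ Q ∈ F, {z | ∃ x, E z x ∧ x ∈ Q} ∈ F)
    (hinv : ∀ B ∈ F, (∀ x y, E x y → (x ∈ B ↔ y ∈ B)) → Ramsey B)
    {A : Set C} (hA : A ∈ F) : Ramsey A := by
  classical
  obtain ⟨h', hm', hlt', h1, h2⟩ := exists_scale2 K hK hiso
  obtain ⟨h, hh⟩ : ∃ h : ℕ → ℕ, h = fun k => h' (h' k) := ⟨_, rfl⟩
  have hm : Monotone h := by
    rw [hh]
    exact fun a b hab => hm' (hm' hab)
  have hlt : ∀ n, n < h n := by
    intro n
    rw [hh]
    exact (hlt' n).trans (hlt' _)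
  refine tail_reduction hF (fun D hD hT _ => ?_) hA
  by_contra hnR
  have hone : Inf fun _ => true := fun n => ⟨n, le_rfl, rfl⟩
  obtain ⟨a, ha⟩ : ∃ a, a ∈ D := by
    by_contra hcon
    push Not at hcon
    exact hnR ⟨fun _ => true, hone, Or.inr fun x _ _ => hcon x⟩
  obtain ⟨b, hb⟩ : ∃ b, b ∉ D := by
    by_contra hcon
    push Not at hcon
    exact hnR ⟨fun _ => true, hone, Or.inl fun x _ _ => hcon x⟩
  obtain ⟨P, hP⟩ : ∃ P : Set C, P = {x : C | Inf x} ∩
    {x : C | ∀ k k', x k = true → x k' = true → k < k' → h k ≤ k'} := ⟨_, rfl⟩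
  have hPF : P ∈ F := by
    rw [hP]
    exact hF.inter2 (hF.inf_mem hD ha hb) (hF.sparse_mem hD ha hb h)
  -- equivalent sparse sets are close
  have hnear : ∀ x y, x ∈ P → y ∈ P → E x y → Near h x y := by
    intro x y hx hy hxy
    rw [hP] at hx hy
    obtain ⟨j, hj⟩ := hEK x y hx.1 hy.1 hxy
    obtain ⟨i, hi⟩ := hEK y x hy.1 hx.1 (hE.symm hxy)
    have hx2 := hx.2
    have hy2 := hy.2
    rw [hh] at hx2 hy2 ⊢
    refine ⟨h' (i + j), fun n hn hxn => ?_, fun n hn hyn => ?_⟩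
    · exact cover2 hm' hlt' h1 h2 hi hx2 n ((hm' (Nat.le_add_right i j)).trans hn) hxn
    · exact cover2 hm' hlt' h1 h2 hj hy2 n ((hm' (Nat.le_add_left j i)).trans hn) hyn
  have hd := fun c => hF.deep_mem hD ha hb h c
  obtain ⟨U, hU⟩ : ∃ U : ℕ → Set C, U = fun c => {z | ∃ x, E z x ∧ x ∈ P ∩ {x | Deep h c x}} :=
    ⟨_, rfl⟩
  obtain ⟨W, hW⟩ : ∃ W : ℕ → Set C, W = fun c =>
    {z | ∃ x, E z x ∧ x ∈ P ∩ ({x | Deep h c x} ∩ lset h c ⁻¹' D)} := ⟨_, rfl⟩
  have hUF : ∀ c, U c ∈ F := by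
    intro c
    rw [hU]
    exact hsat _ (hF.inter2 hPF (hd c))
  have hWF : ∀ c, W c ∈ F := by
    intro c
    rw [hW]
    exact hsat _ (hF.inter2 hPF (hF.inter2 (hd c) (hF.preimage D hD _ (continuous_lset hlt c))))
  have hinvE : ∀ (Q : Set C) (x y : C), E x y →
      ((∃ z, E x z ∧ z ∈ Q) ↔ ∃ z, E y z ∧ z ∈ Q) := by
    intro Q x y hxy
    constructor
    · rintro ⟨z, hz, hzQ⟩
      exact ⟨z, hE.trans (hE.symm hxy) hz, hzQ⟩
    · rintro ⟨z, hz, hzQ⟩
      exact ⟨z, hE.trans hxy hz, hzQ⟩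
  have hUi : ∀ c x y, E x y → (x ∈ U c ↔ y ∈ U c) := by
    intro c x y hxy
    rw [hU]
    exact hinvE _ x y hxy
  have hWi : ∀ c x y, E x y → (x ∈ W c ↔ y ∈ W c) := by
    intro c x y hxy
    rw [hW]
    exact hinvE _ x y hxy
  obtain ⟨B, hB⟩ : ∃ B : Set C, B = W 0 ∪ ((U 0)ᶜ ∩ W 1) := ⟨_, rfl⟩
  have hBF : B ∈ F := by
    rw [hB]
    exact hF.union2 (hWF 0) (hF.inter2 (hF.compl _ (hUF 0)) (hWF 1))
  have hBi : ∀ x y, E x y → (x ∈ B ↔ y ∈ B) := by
    intro x y hxy
    rw [hB]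
    show (x ∈ W 0 ∨ (¬ x ∈ U 0 ∧ x ∈ W 1)) ↔ (y ∈ W 0 ∨ (¬ y ∈ U 0 ∧ y ∈ W 1))
    rw [hWi 0 x y hxy, hUi 0 x y hxy, hWi 1 x y hxy]
  have hUd : ∀ c y, y ∈ P → (y ∈ U c ↔ Deep h c y) := by
    intro c y hy
    rw [hU]
    constructor
    · rintro ⟨x, hyx, hx, hxd⟩
      have hxd' : Deep h c x := hxd
      exact hxd'.near hm hlt (hnear x y hx hy (hE.symm hyx))
    · intro hyd
      exact ⟨y, hE.refl y, hy, hyd⟩
  have hWd : ∀ c y, c < 2 → y ∈ P → Deep h c y → (y ∈ W c ↔ lset h c y ∈ D) := by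
    intro c y hc hy hyd
    rw [hW]
    constructor
    · rintro ⟨x, hyx, hx, -, hxD⟩
      exact (hT _ _ (lset_near hm hlt hc hyd (hnear y x hy hx hyx))).2 hxD
    · intro hyD
      exact ⟨y, hE.refl y, hy, hyd, hyD⟩
  have hWU : ∀ c y, y ∈ W c → y ∈ U c := by
    intro c y hy
    rw [hW] at hy
    rw [hU]
    obtain ⟨x, hyx, hx, hxd, -⟩ := hy
    exact ⟨x, hyx, hx, hxd⟩
  obtain ⟨K0, hK0, hKB⟩ := hinv B hBF hBi
  apply hnR
  obtain ⟨K1, hK1, hK1K, hK1s⟩ := sparse K0 hK0 h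
  have hsubP : ∀ x, Inf x → Sub x K1 → x ∈ P := by
    intro x hx hxK
    rw [hP]
    exact ⟨hx, fun k k' hk hk' => hK1s k k' (hxK k hk) (hxK k' hk')⟩
  by_cases hex : ∃ K', Inf K' ∧ Sub K' K1 ∧ Deep h 0 K'
  · obtain ⟨K', hK', hK'K, hK'd⟩ := hex
    refine lset_ramsey hlt (c := 0) (by omega) K' hK' ?_
    have h3 : ∀ x, Inf x → Sub x K' → (x ∈ B ↔ lset h 0 x ∈ D) := by
      intro x hx hxK
      have hxP := hsubP x hx (hxK.trans hK'K)
      rw [← hWd 0 x (by omega) hxP (hK'd.sub hxK), hB]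
      constructor
      · rintro (h4 | h4)
        · exact h4
        · exact absurd ((hUd 0 x hxP).2 (hK'd.sub hxK)) h4.1
      · exact Or.inl
    rcases hKB with h4 | h4
    · exact Or.inl fun x hx hxK => (h3 x hx hxK).1 (h4 x hx (hxK.trans (hK'K.trans hK1K)))
    · exact Or.inr fun x hx hxK h5 =>
        h4 x hx (hxK.trans (hK'K.trans hK1K)) ((h3 x hx hxK).2 h5)
  · push Not at hex
    obtain ⟨K', hK', hK'K, hK'd⟩ := exists_deep hm hlt K1 hK1
    have hK'1 : Deep h 1 K' := hK'd.resolve_left (hex K' hK' hK'K)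
    refine lset_ramsey hlt (c := 1) (by omega) K' hK' ?_
    have h3 : ∀ x, Inf x → Sub x K' → (x ∈ B ↔ lset h 1 x ∈ D) := by
      intro x hx hxK
      have hxP := hsubP x hx (hxK.trans hK'K)
      have hx0 : ¬ x ∈ U 0 := fun h4 => hex x hx (hxK.trans hK'K) ((hUd 0 x hxP).1 h4)
      rw [← hWd 1 x (by omega) hxP (hK'1.sub hxK), hB]
      constructor
      · rintro (h4 | h4)
        · exact absurd (hWU 0 x h4) hx0
        · exact h4.2
      · exact fun h4 => Or.inr ⟨hx0, h4⟩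
    rcases hKB with h4 | h4
    · exact Or.inl fun x hx hxK => (h3 x hx hxK).1 (h4 x hx (hxK.trans (hK'K.trans hK1K)))
    · exact Or.inr fun x hx hxK h5 =>
        h4 x hx (hxK.trans (hK'K.trans hK1K)) ((h3 x hx hxK).2 h5)

end Pool.Agent.Work.RamseyAD
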