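import Pool.Agent.Work.MP_f36782_h82.Coding

set_option autoImplicit false

/-!
The equivalence relation given by the map `enrich` has at most three elements in each class.
-/

namespace Pool.Agent.Work.RamseyAD

/-- the part of parity `r` -/
def part (r : ℕ) (x : C) : C := fun k => x k && decide (k % 2 = r)

theorem part_enrich {x : C} {r : ℕ} (hx : ∀ k, x k = true → k % 2 = r) :
    part r (enrich x) = x := by
  funext k
  refine Bool.eq_iff_iff.2 ?_
  unfold part
  rw [Bool.and_eq_true, enrich_true, decide_eq_true_iff]
  constructor
  · rintro ⟨h1 | ⟨b, h1, h2, h3, -⟩, h4⟩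
    · exact h1
    · exact absurd (h4.trans (hx b h2).symm) h3
  · intro hk
    exact ⟨Or.inl hk, hx k hk⟩

theorem tmap_tmap (x : C) : tmap (tmap x) = tmap x := by
  classical
  by_cases hx : OneParity x
  · have h1 : tmap x = enrich x := by
      unfold tmap
      rw [if_pos hx]
    rw [h1]
    unfold tmap
    split_ifs with h2
    · have h3 : enrich x = x := by
        by_cases hne : ∃ k, x k = true
        · obtain ⟨k0, hk0⟩ := hne
          have key : ∀ r, (∀ k, x k = true → k % 2 = r) → enrich x = x := by
            intro r hr
            have h4 := part_enrich hr
            have h5 : ∀ k, enrich x k = true → k % 2 = r := by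
              have h6 : enrich x k0 = true := (enrich_true x k0).2 (Or.inl hk0)
              have h7 := hr k0 hk0
              rcases h2 with h2 | h2
              · have := h2 k0 h6
                intro k hk
                rw [h2 k hk]
                omega
              · have := h2 k0 h6
                intro k hk
                rw [h2 k hk]
                omega
            rw [← h4]
            funext k
            refine Bool.eq_iff_iff.2 ?_
            rw [h4]
            constructor
            · intro hk
              have : part r (enrich x) k = true := by
                unfold part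
                rw [Bool.and_eq_true, decide_eq_true_iff]
                exact ⟨hk, h5 k hk⟩
              rwa [h4] at this
            · exact fun hk => (enrich_true x k).2 (Or.inl hk)
          rcases hx with hx | hx
          · exact key 0 hx
          · exact key 1 hx
        · funext k
          refine Bool.eq_iff_iff.2 ?_
          rw [enrich_true]
          constructor
          · rintro (h4 | ⟨b, -, h4, -⟩)
            · exact h4
            · exact absurd ⟨b, h4⟩ hne
          · exact fun hk => Or.inl hk
      rw [h3]
      exact h3
    · rfl
  · unfold tmap
    rw [if_neg hx, if_neg hx]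

theorem tmap_fibre (y : C) : (tmap ⁻¹' {y}).encard ≤ 3 := by
  classical
  have hsub : tmap ⁻¹' {y} ⊆ {y, part 0 y, part 1 y} := by
    intro x hx
    have hx' : tmap x = y := hx
    by_cases h1 : OneParity x
    · have h2 : enrich x = y := by
        rw [← hx']
        unfold tmap
        rw [if_pos h1]
      rcases h1 with h1 | h1
      · right; left
        rw [← h2, part_enrich h1]
      · right; right
        rw [Set.mem_singleton_iff, ← h2, part_enrich h1]
    · left
      rw [← hx']
      unfold tmap
      rw [if_neg h1]
  refine (Set.encard_le_encard hsub).trans ?_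
  refine (Set.encard_insert_le _ _).trans ?_
  have h1 : ({part 0 y, part 1 y} : Set C).encard ≤ 2 := by
    refine (Set.encard_insert_le _ _).trans ?_
    rw [Set.encard_singleton]
    norm_num
  calc ({part 0 y, part 1 y} : Set C).encard + 1 ≤ 2 + 1 := by gcongr
    _ = 3 := by norm_num

theorem measurableSet_point (k : ℕ) : MeasurableSet {x : C | x k = true} := by
  have h1 : Measurable fun x : C => x k := measurable_pi_apply k
  exact h1 (MeasurableSet.singleton true)

theorem measurable_tmap : Measurable tmap := by
  classical
  have hmono : ∀ r, MeasurableSet {x : C | ∀ k, x k = true → k % 2 = r} := by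
    intro r
    have h1 : {x : C | ∀ k, x k = true → k % 2 = r} =
        ⋂ k, if k % 2 = r then Set.univ else {x : C | x k = true}ᶜ := by
      ext x
      simp only [Set.mem_iInter, Set.mem_ofPred_eq]
      refine forall_congr' fun k => ?_
      split_ifs with h2
      · exact ⟨fun _ => Set.mem_univ _, fun _ _ => h2⟩
      · exact ⟨fun h3 h4 => h2 (h3 h4), fun h3 h4 => absurd h4 h3⟩
    rw [h1]
    refine MeasurableSet.iInter fun k => ?_
    split_ifs
    · exact MeasurableSet.univ
    · exact (measurableSet_point k).compl
  have hlow : ∀ b (s : Finset ℕ), MeasurableSet {x : C | low b x = s} := by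
    intro b s
    have h1 : {x : C | low b x = s} = ⋂ k : ℕ, if k < b ∧ k ∈ s then {x : C | x k = true} else
        if k < b then {x : C | x k = true}ᶜ else if k ∈ s then ∅ else Set.univ := by
      ext x
      simp only [Set.mem_iInter, Set.mem_ofPred_eq]
      unfold low
      rw [Finset.ext_iff]
      refine forall_congr' fun k => ?_
      rw [Finset.mem_filter, Finset.mem_range]
      by_cases h2 : k < b <;> by_cases h3 : k ∈ s
      · simp only [h2, h3, and_self, if_true, true_and, iff_true]
        rfl
      · simp only [h2, h3, and_false, if_false, if_true, true_and, iff_false]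
        rfl
      · simp only [h2, h3, false_and, if_false, if_true, iff_true]
        exact ⟨fun h => absurd h (by simp), fun h => absurd h (Set.notMem_empty _)⟩
      · simp only [h2, h3, false_and, if_false, Set.mem_univ]
    rw [h1]
    refine MeasurableSet.iInter fun k => ?_
    split_ifs
    · exact measurableSet_point k
    · exact (measurableSet_point k).compl
    · exact MeasurableSet.empty
    · exact MeasurableSet.univ
  have hen : Measurable enrich := by
    refine measurable_pi_iff.2 fun k => measurable_to_bool ?_
    have h1 : (fun x : C => enrich x k) ⁻¹' {true} = {x : C | x k = true} ∪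
        ⋃ b : ℕ, ⋃ s : Finset ℕ, if k < b ∧ k % 2 ≠ b % 2 ∧ val' b s = k then
          {x : C | x b = true} ∩ ((⋂ c : ℕ, if k ≤ c ∧ c < b then {x : C | x c = true}ᶜ
            else Set.univ) ∩ {x : C | low b x = s}) else ∅ := by
      ext x
      rw [Set.mem_preimage, Set.mem_singleton_iff, enrich_true, Set.mem_union]
      refine or_congr Iff.rfl ?_
      simp only [Set.mem_iUnion]
      refine exists_congr fun b => ?_
      constructor
      · rintro ⟨h2, h3, h4, h5, h6⟩
        refine ⟨low b x, ?_⟩
        rw [if_pos ⟨h2, h4, h6⟩]
        refine ⟨h3, Set.mem_iInter.2 fun c => ?_, rfl⟩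
        split_ifs with h7
        · show ¬ x c = true
          rw [h5 c h7.1 h7.2]
          decide
        · exact Set.mem_univ _
      · rintro ⟨s, hs⟩
        split_ifs at hs with h2
        · obtain ⟨h3, h4, h5⟩ := hs
          have h5' : low b x = s := h5
          refine ⟨h2.1, h3, h2.2.1, fun c hc1 hc2 => ?_, by rw [h5']; exact h2.2.2⟩
          have h6 := Set.mem_iInter.1 h4 c
          rw [if_pos ⟨hc1, hc2⟩] at h6
          exact Bool.not_eq_true _ ▸ h6
        · exact absurd hs (Set.notMem_empty _)
    rw [h1]
    refine (measurableSet_point k).union (MeasurableSet.iUnion fun b =>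
      MeasurableSet.iUnion fun s => ?_)
    split_ifs
    · refine (measurableSet_point b).inter (MeasurableSet.inter (MeasurableSet.iInter fun c => ?_)
        (hlow b s))
      split_ifs
      · exact (measurableSet_point c).compl
      · exact MeasurableSet.univ
    · exact MeasurableSet.empty
  unfold tmap
  exact Measurable.ite ((hmono 0).union (hmono 1)) hen measurable_id

theorem sub_tmap (x : C) : Sub x (tmap x) := by
  classical
  intro k hk
  unfold tmap
  split_ifs
  · exact (enrich_true x k).2 (Or.inl hk)
  · exact hk

/-- **Theorem, the coding part.** -/
theorem tmap_ramsey (A : Set C)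
    (hdet : ∀ f : (ℕ → ℕ) → C, Continuous f → Determined (f ⁻¹' A)) : Ramsey (tmap ⁻¹' A) := by
  classical
  obtain ⟨H, hH, hpar, hHA⟩ := enrich_hom A hdet
  have h1 : ∀ x, Sub x H → tmap x = enrich x := by
    intro x hx
    have h2 : OneParity x := by
      rcases hpar with h | h
      · exact Or.inl fun k hk => h k (hx k hk)
      · exact Or.inr fun k hk => h k (hx k hk)
    unfold tmap
    exact if_pos h2
  refine ⟨H, hH, ?_⟩
  rcases hHA with h | h
  · left
    intro x hx hxH
    show tmap x ∈ A
    rw [h1 x hxH]
    exact h x hx hxH
  · right
    intro x hx hxH h2
    have h3 : tmap x ∈ A := h2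
    rw [h1 x hxH] at h3
    exact h x hx hxH h3

end Pool.Agent.Work.RamseyAD
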