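import Pool.Agent.Work.MP_f36782_h82.Unbounded

set_option autoImplicit false

/-!
An equivalence relation whose classes have at most three elements such that all determined invariant
sets are Ramsey.
-/

namespace Pool.Agent.Work.RamseyAD

theorem smaller_eq (b : ℕ) (x : C) : smaller b x = low b x := rfl

theorem enrich_true (x : C) (k : ℕ) : enrich x k = true ↔ x k = true ∨ ∃ b, k < b ∧ x b = true ∧
    k % 2 ≠ b % 2 ∧ (∀ c, k ≤ c → c < b → x c = false) ∧ val' b (low b x) = k := by
  classical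
  unfold enrich
  rw [Bool.or_eq_true, decide_eq_true_iff]
  rfl

/-- codes for tables -/
theorem exists_code (V : Finset ℕ → ℕ) (T : Finset ℕ) (N r : ℕ) (hr : r < 2) :
    ∃ b, N ≤ b ∧ b % 2 = r ∧ ∀ s ⊆ T, val' b s = V s := by
  classical
  obtain ⟨M, hM⟩ : ∃ M, ∀ s ⊆ T, Encodable.encode s < M := by
    refine ⟨(T.powerset.sup fun s => Encodable.encode s) + 1, fun s hs => ?_⟩
    exact Nat.lt_succ_of_le (Finset.le_sup (f := fun s => Encodable.encode s)
      (Finset.mem_powerset.2 hs))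
  obtain ⟨L, hL⟩ : ∃ L : List ℕ, L = (List.range M).map fun i =>
    V ((Encodable.decode i : Option (Finset ℕ)).getD ∅) := ⟨_, rfl⟩
  refine ⟨2 * Nat.pair (cod L) N + r, ?_, by omega, fun s hs => ?_⟩
  · have := Nat.right_le_pair (cod L) N
    omega
  · unfold val'
    have h1 : (2 * Nat.pair (cod L) N + r) / 2 = Nat.pair (cod L) N := by omega
    rw [h1, Nat.unpair_pair, dec_cod]
    have h2 : Encodable.encode s < L.length := by
      rw [hL, List.length_map, List.length_range]
      exact hM s hs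
    rw [List.getD_eq_getElem _ _ h2]
    simp only [hL, List.getElem_map, List.getElem_range, Encodable.encodek, Option.getD_some]

/-- an increasing sequence whose elements prescribe given values for all sets of smaller elements -/
theorem coding (V W : Finset ℕ → ℕ) (r : ℕ) (hr : r < 2) : ∃ h : ℕ → ℕ, StrictMono h ∧
    (∀ n, h n % 2 = r) ∧ ∀ n (s : Finset ℕ), (∀ k ∈ s, ∃ j, j < n ∧ h j = k) →
      val' (h n) s = V s ∧ W s < h n := by
  classical
  have hex : ∀ l : List ℕ, ∃ b, (l.sum + (∑ s ∈ l.toFinset.powerset, W s) + 1 ≤ b) ∧ b % 2 = r ∧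
      ∀ s ⊆ l.toFinset, val' b s = V s := fun l => exists_code V l.toFinset _ r hr
  choose pick hpick using hex
  obtain ⟨h, hh⟩ := exists_play pick
  have hmem : ∀ n k, k ∈ (hist h n).toFinset ↔ ∃ j, j < n ∧ h j = k := by
    intro n k
    rw [List.mem_toFinset, hist, List.mem_map]
    constructor
    · rintro ⟨j, hj, hjk⟩
      exact ⟨j, List.mem_range.1 hj, hjk⟩
    · rintro ⟨j, hj, hjk⟩
      exact ⟨j, List.mem_range.2 hj, hjk⟩
  refine ⟨h, strictMono_nat_of_lt_succ fun n => ?_, fun n => ?_, fun n s hs => ?_⟩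
  · have h1 := (hpick (hist h (n + 1))).1
    rw [← hh (n + 1), hist_succ, List.sum_append] at h1
    simp only [List.sum_cons, List.sum_nil] at h1
    omega
  · rw [hh n]
    exact (hpick _).2.1
  · have hsub : s ⊆ (hist h n).toFinset := fun k hk => (hmem n k).2 (hs k hk)
    have h1 := hpick (hist h n)
    rw [← hh n] at h1
    refine ⟨h1.2.2 s hsub, ?_⟩
    have h2 : W s ≤ ∑ s ∈ (hist h n).toFinset.powerset, W s :=
      Finset.single_le_sum (f := fun s => W s) (fun _ _ => Nat.zero_le _)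
        (Finset.mem_powerset.2 hsub)
    have h3 := h1.1
    omega

/-! ### The plays -/

/-- the increasing sequence produced by the moves -/
def cc (z : ℕ → ℕ) (n : ℕ) : ℕ := n + 2 * ∑ j ∈ Finset.range (n + 1), z j

theorem cc_strictMono (z : ℕ → ℕ) : StrictMono (cc z) := strictMono_nat_of_lt_succ fun n => by
  unfold cc
  rw [Finset.sum_range_succ _ (n + 1)]
  omega

theorem cc_mod (z : ℕ → ℕ) (n : ℕ) : cc z n % 2 = n % 2 := by
  unfold cc
  omega

theorem continuous_cc : Continuous cc := by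
  refine continuous_pi fun n => ?_
  unfold cc
  fun_prop

/-- the smallest possible next value -/
def wl (l : List ℕ) : ℕ := l.length + 2 * l.sum

theorem wl_hist (z : ℕ → ℕ) (n : ℕ) : wl (hist z n) + 2 * z n = cc z n := by
  have h1 : (hist z n).sum = ∑ j ∈ Finset.range n, z j := by
    induction n with
    | zero => rfl
    | succ n ih =>
      rw [hist_succ, List.sum_append, ih, Finset.sum_range_succ]
      simp
  unfold wl cc
  rw [hist_length, h1, Finset.sum_range_succ]
  ring

/-- the opponent moves in the moves of parity `e`, such that the values become `β`, the other player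
follows `ρ` -/
def rmv (ρ : List ℕ → ℕ) (e : ℕ) (β : ℕ → ℕ) (l : List ℕ) : ℕ :=
  if l.length % 2 = e then (β (l.length / 2) - wl l) / 2 else ρ l

/-- the partial plays -/
def rh (ρ : List ℕ → ℕ) (e : ℕ) (β : ℕ → ℕ) : ℕ → List ℕ
  | 0 => []
  | n + 1 => rh ρ e β n ++ [rmv ρ e β (rh ρ e β n)]

/-- the play -/
def rz (ρ : List ℕ → ℕ) (e : ℕ) (β : ℕ → ℕ) (n : ℕ) : ℕ := rmv ρ e β (rh ρ e β n)

theorem hist_rz (ρ : List ℕ → ℕ) (e : ℕ) (β : ℕ → ℕ) (n : ℕ) :
    hist (rz ρ e β) n = rh ρ e β n := by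
  induction n with
  | zero => rfl
  | succ n ih =>
    rw [hist_succ, ih]
    rfl

theorem rz_eq (ρ : List ℕ → ℕ) (e : ℕ) (β : ℕ → ℕ) (n : ℕ) :
    rz ρ e β n = if n % 2 = e then (β (n / 2) - wl (hist (rz ρ e β) n)) / 2
      else ρ (hist (rz ρ e β) n) := by
  have h1 : (rh ρ e β n).length = n := by rw [← hist_rz, hist_length]
  rw [hist_rz]
  show rmv ρ e β (rh ρ e β n) = _
  unfold rmv
  rw [h1]

theorem rh_congr (ρ : List ℕ → ℕ) (e : ℕ) (he : e < 2) {β β' : ℕ → ℕ} (i : ℕ)
    (h : ∀ j, j < i → β j = β' j) (n : ℕ) (hn : n ≤ 2 * i + e) :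
    rh ρ e β n = rh ρ e β' n := by
  induction n with
  | zero => rfl
  | succ n ih =>
    show rh ρ e β n ++ [rmv ρ e β (rh ρ e β n)] = rh ρ e β' n ++ [rmv ρ e β' (rh ρ e β' n)]
    rw [ih (by omega)]
    congr 2
    have h1 : (rh ρ e β' n).length = n := by rw [← hist_rz, hist_length]
    unfold rmv
    rw [h1]
    split_ifs with h2
    · rw [h (n / 2) (by omega)]
    · rfl

theorem rz_congr (ρ : List ℕ → ℕ) (e : ℕ) (he : e < 2) {β β' : ℕ → ℕ} (i : ℕ)
    (h : ∀ j, j < i → β j = β' j) (n : ℕ) (hn : n < 2 * i + e) :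
    rz ρ e β n = rz ρ e β' n := by
  have h1 := rh_congr ρ e he i h (n + 1) hn
  have h2 : rh ρ e β (n + 1) = rh ρ e β n ++ [rz ρ e β n] := rfl
  have h3 : rh ρ e β' (n + 1) = rh ρ e β' n ++ [rz ρ e β' n] := rfl
  rw [h2, h3, rh_congr ρ e he i h n (by omega)] at h1
  simpa using h1

theorem cc_congr {z z' : ℕ → ℕ} (n : ℕ) (h : ∀ j, j ≤ n → z j = z' j) : cc z n = cc z' n := by
  unfold cc
  congr 2
  exact Finset.sum_congr rfl fun j hj => h j (Nat.lt_succ_iff.1 (Finset.mem_range.1 hj))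

/-- the enumeration of a finite set -/
noncomputable def fenum (s : Finset ℕ) (i : ℕ) : ℕ := (s.sort (· ≤ ·)).getD i 0

theorem fenum_hist (b : ℕ → ℕ) (hb : StrictMono b) (i : ℕ) :
    ((hist b i).toFinset.card = i) ∧ ∀ j, j < i → fenum (hist b i).toFinset j = b j := by
  have hsorted : (hist b i).Pairwise (· ≤ ·) := by
    rw [hist, List.pairwise_map]
    exact (List.pairwise_lt_range (n := i)).imp fun h => (hb h).le
  have hnd : (hist b i).Nodup := by
    rw [hist]
    exact List.Nodup.map hb.injective List.nodup_range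
  refine ⟨?_, fun j hj => ?_⟩
  · rw [List.toFinset_card_of_nodup hnd, hist_length]
  · unfold fenum
    rw [(List.toFinset_sort (· ≤ ·) hnd).2 hsorted]
    exact hist_getD b hj

/-- Against every strategy there is an infinite set whose subsets, enriched, are results of plays of
the strategy. -/
theorem enrich_play (ρ : List ℕ → ℕ) (e : ℕ) (he : e < 2) : ∃ h : ℕ → ℕ, StrictMono h ∧
    (∀ n, h n % 2 = e) ∧ ∀ k : ℕ → ℕ, StrictMono k → ∃ z : ℕ → ℕ,
      (∀ n, n % 2 ≠ e → z n = ρ (hist z n)) ∧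
        enrich (chi (Set.range fun i => h (k i))) = chi (Set.range (cc z)) := by
  classical
  obtain ⟨V, hV⟩ : ∃ V : Finset ℕ → ℕ, V = fun s => if e = 0 ∧ s = ∅ then 0 else
    cc (rz ρ e (fenum s)) (2 * s.card + e - 1) := ⟨_, rfl⟩
  obtain ⟨W, hW⟩ : ∃ W : Finset ℕ → ℕ, W = fun s =>
    wl (hist (rz ρ e (fenum s)) (2 * s.card + e)) := ⟨_, rfl⟩
  obtain ⟨h, hh, hhe, hhV⟩ := coding V W e he
  refine ⟨h, hh, hhe, fun k hk => ?_⟩
  obtain ⟨b, hb⟩ : ∃ b : ℕ → ℕ, b = fun i => h (k i) := ⟨_, rfl⟩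
  have hbm : StrictMono b := by rw [hb]; exact hh.comp hk
  obtain ⟨z, hz⟩ : ∃ z : ℕ → ℕ, z = rz ρ e b := ⟨_, rfl⟩
  have hs : ∀ i, ∀ m ∈ (hist b i).toFinset, ∃ j, j < k i ∧ h j = m := by
    intro i m hm
    rw [List.mem_toFinset, hist, List.mem_map] at hm
    obtain ⟨j, hj, rfl⟩ := hm
    exact ⟨k j, hk (List.mem_range.1 hj), by rw [hb]⟩
  have hcode : ∀ i, val' (b i) (hist b i).toFinset = V (hist b i).toFinset ∧
      W (hist b i).toFinset < b i := by
    intro i
    have := hhV (k i) _ (hs i)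
    rw [hb] at this ⊢
    exact this
  have hrz : ∀ i n, n < 2 * i + e → rz ρ e (fenum (hist b i).toFinset) n = z n := by
    intro i n hn
    rw [hz]
    exact rz_congr ρ e he i (fenum_hist b hbm i).2 n hn
  have hWb : ∀ i, wl (hist z (2 * i + e)) < b i := by
    intro i
    have h1 := (hcode i).2
    rw [hW] at h1
    simp only [(fenum_hist b hbm i).1] at h1
    rw [hist_rz, rh_congr ρ e he i (fenum_hist b hbm i).2 _ le_rfl, ← hist_rz, ← hz] at h1
    exact h1
  have hbe : ∀ i, b i % 2 = e := fun i => by rw [hb]; exact hhe _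
  have hcb : ∀ i, cc z (2 * i + e) = b i := by
    intro i
    rw [← wl_hist]
    have h1 : z (2 * i + e) = (b i - wl (hist z (2 * i + e))) / 2 := by
      have h2 := rz_eq ρ e b (2 * i + e)
      rw [← hz, if_pos (by omega)] at h2
      have h3 : (2 * i + e) / 2 = i := by omega
      rw [h3] at h2
      exact h2
    have h4 : wl (hist z (2 * i + e)) % 2 = e := by
      unfold wl
      rw [hist_length]
      omega
    have h5 := hWb i
    have h6 := hbe i
    rw [h1]
    omega
  have hval : ∀ i, ¬ (e = 0 ∧ i = 0) → val' (b i) (hist b i).toFinset = cc z (2 * i + e - 1) := by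
    intro i hi
    rw [(hcode i).1, hV]
    dsimp only
    rw [if_neg, (fenum_hist b hbm i).1]
    · exact cc_congr _ fun j hj => hrz i j (by omega)
    · rintro ⟨h1, h2⟩
      have h3 := (fenum_hist b hbm i).1
      rw [h2, Finset.card_empty] at h3
      exact hi ⟨h1, h3.symm⟩
  have hval0 : e = 0 → val' (b 0) (hist b 0).toFinset = 0 := by
    intro h0
    rw [(hcode 0).1, hV]
    dsimp only
    rw [if_pos ⟨h0, rfl⟩]
  have hlow : ∀ i, low (b i) (chi (Set.range b)) = (hist b i).toFinset := by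
    intro i
    ext m
    rw [List.mem_toFinset, hist, List.mem_map]
    unfold low
    rw [Finset.mem_filter, Finset.mem_range, chi_eq_true]
    constructor
    · rintro ⟨h1, j, rfl⟩
      exact ⟨j, List.mem_range.2 (hbm.lt_iff_lt.1 h1), rfl⟩
    · rintro ⟨j, hj, rfl⟩
      exact ⟨hbm (List.mem_range.1 hj), j, rfl⟩
  refine ⟨z, fun n hn => ?_, ?_⟩
  · have h2 := rz_eq ρ e b n
    rw [← hz, if_neg hn] at h2
    exact h2
  · have hbr : (Set.range fun i => h (k i)) = Set.range b := by rw [hb]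
    rw [hbr]
    funext m
    refine Bool.eq_iff_iff.2 ?_
    rw [enrich_true, chi_eq_true, chi_eq_true]
    constructor
    · rintro (⟨i, rfl⟩ | ⟨b', h1, h2, h3, h4, h5⟩)
      · exact ⟨2 * i + e, hcb i⟩
      · obtain ⟨i, rfl⟩ := (chi_eq_true _ _).1 h2
        rw [hlow] at h5
        by_cases h6 : e = 0 ∧ i = 0
        · exfalso
          obtain ⟨h7, h8⟩ := h6
          rw [h8, hval0 h7] at h5
          have := hbe i
          omega
        · rw [hval i h6] at h5
          exact ⟨_, h5⟩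
    · rintro ⟨n, rfl⟩
      by_cases h1 : n % 2 = e
      · left
        refine ⟨n / 2, ?_⟩
        rw [← hcb]
        congr 1
        omega
      · right
        obtain ⟨i, hi⟩ : ∃ i, n + 1 = 2 * i + e := ⟨(n + 1) / 2, by omega⟩
        have h2 : cc z (n + 1) = b i := by rw [hi]; exact hcb i
        refine ⟨b i, ?_, (chi_eq_true _ _).2 ⟨i, rfl⟩, ?_, ?_, ?_⟩
        · rw [← h2]
          exact cc_strictMono z (Nat.lt_succ_self n)
        · rw [cc_mod, hbe]
          exact h1
        · intro c hc1 hc2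
          rw [← Bool.not_eq_true, chi_eq_true]
          rintro ⟨j, rfl⟩
          rw [← hcb j] at hc1 hc2
          rw [← h2] at hc2
          have h3 := (cc_strictMono z).le_iff_le.1 hc1
          have h4 := (cc_strictMono z).lt_iff_lt.1 hc2
          omega
        · rw [hlow, hval i (by omega)]
          congr 1
          omega

/-- **Theorem, the coding part.** -/
theorem enrich_hom (A : Set C)
    (hdet : ∀ f : (ℕ → ℕ) → C, Continuous f → Determined (f ⁻¹' A)) :
    ∃ H, Inf H ∧ ((∀ k, H k = true → k % 2 = 0) ∨ (∀ k, H k = true → k % 2 = 1)) ∧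
      ((∀ x, Inf x → Sub x H → enrich x ∈ A) ∨ (∀ x, Inf x → Sub x H → enrich x ∉ A)) := by
  classical
  have hc : Continuous fun z : ℕ → ℕ => chi (∅ ∪ Set.range (cc z)) :=
    continuous_chi_range ∅ cc continuous_cc cc_strictMono
  have key : ∀ (ρ : List ℕ → ℕ) (e : ℕ), e < 2 → ∃ H, Inf H ∧ (∀ k, H k = true → k % 2 = e) ∧
      ∀ x, Inf x → Sub x H → ∃ z : ℕ → ℕ, (∀ n, n % 2 ≠ e → z n = ρ (hist z n)) ∧
        enrich x = chi (∅ ∪ Set.range (cc z)) := by
    intro ρ e he
    obtain ⟨h, hh, hhe, hz⟩ := enrich_play ρ e he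
    refine ⟨chi (Set.range h), chi_inf (Set.infinite_range_of_injective hh.injective), ?_,
      fun x hx hxH => ?_⟩
    · intro k hk
      obtain ⟨i, rfl⟩ := (chi_eq_true _ k).1 hk
      exact hhe i
    · obtain ⟨k, hk, hkx⟩ := enum_sub h {i | x i = true}
        (fun i hi => (chi_eq_true _ i).1 (hxH i hi)) (infinite_of_Inf hx)
      obtain ⟨z, hz1, hz2⟩ := hz k hk
      refine ⟨z, hz1, ?_⟩
      have hxe : x = chi (Set.range fun i => h (k i)) := by
        have h1 : (Set.range fun i => h (k i)) = {i | x i = true} := hkx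
        rw [h1, chi_self]
      rw [Set.empty_union, ← hz2, ← hxe]
  rcases hdet _ hc with ⟨σ, hσ⟩ | ⟨τ, hτ⟩
  · obtain ⟨H, hH, hHe, hx⟩ := key σ 1 (by omega)
    refine ⟨H, hH, Or.inr hHe, Or.inl fun x hxI hxH => ?_⟩
    obtain ⟨z, hz1, hz2⟩ := hx x hxI hxH
    rw [hz2]
    exact hσ z fun n => hz1 (2 * n) (by omega)
  · obtain ⟨H, hH, hHe, hx⟩ := key τ 0 (by omega)
    refine ⟨H, hH, Or.inl hHe, Or.inr fun x hxI hxH h1 => ?_⟩
    obtain ⟨z, hz1, hz2⟩ := hx x hxI hxH
    rw [hz2] at h1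
    exact hτ z (fun n => hz1 (2 * n + 1) (by omega)) h1

end Pool.Agent.Work.RamseyAD
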