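import Pool.Agent.Work.MP_f36782_h82.Bounded

set_option autoImplicit false

/-!
If all sets in a closed determined family which are invariant under an equivalence relation covered
by the graphs of countably many continuous maps are Ramsey then all sets in the family are Ramsey.
-/

namespace Pool.Agent.Work.RamseyAD

/-- a continuous function on Cantor space depends on finitely many coordinates -/
theorem exists_use (f : C → Bool) (hf : Continuous f) :
    ∃ N, ∀ x y : C, (∀ i, i < N → x i = y i) → f x = f y := by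
  classical
  have h1 : ∀ x : C, ∃ N, ∀ y : C, (∀ k, k < N → y k = x k) → f y = f x := by
    intro x
    have ho : IsOpen (f ⁻¹' {f x}) := (isOpen_discrete _).preimage hf
    obtain ⟨N, hN⟩ := (isOpen_iff_agree _).1 ho x rfl
    exact ⟨N, fun y hy => hN y hy⟩
  choose N hN using h1
  have hU : ∀ x : C, IsOpen {y : C | ∀ k, k < N x → y k = x k} := by
    intro x
    rw [isOpen_iff_agree]
    intro y hy
    exact ⟨N x, fun z hz k hk => by rw [hz k hk]; exact hy k hk⟩
  obtain ⟨t, ht⟩ := isCompact_univ.elim_finite_subcover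
    (fun x : C => {y : C | ∀ k, k < N x → y k = x k}) hU
    (fun x _ => Set.mem_iUnion.2 ⟨x, fun k _ => rfl⟩)
  refine ⟨t.sup N, fun x y hxy => ?_⟩
  have h2 := ht (Set.mem_univ x)
  simp only [Set.mem_iUnion] at h2
  obtain ⟨z, hz, hxz⟩ := h2
  have h3 : N z ≤ t.sup N := Finset.le_sup hz
  have hxz' : ∀ k, k < N z → x k = z k := hxz
  rw [hN z x hxz', hN z y fun k hk => by rw [← hxy k (lt_of_lt_of_le hk h3)]; exact hxz' k hk]

theorem exists_bound (w : C) (m : ℕ) : ∃ b, (¬ Inf w → ∀ q, w q = true → q < b) ∧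
    (Inf w → ∃ q, m ≤ q ∧ q < b ∧ w q = true) := by
  by_cases hw : Inf w
  · obtain ⟨q, hq, hwq⟩ := hw m
    exact ⟨q + 1, fun h => absurd hw h, fun _ => ⟨q, hq, Nat.lt_succ_self q, hwq⟩⟩
  · unfold Inf at hw
    push Not at hw
    obtain ⟨n, hn⟩ := hw
    refine ⟨n, fun _ q hq => ?_, fun h => ?_⟩
    · by_contra hcon
      exact hn q (not_lt.1 hcon) hq
    · obtain ⟨k, hk, hwk⟩ := h n
      exact absurd hwk (hn k hk)

/-- the scale of a sequence of continuous maps -/
theorem exists_scale (g : ℕ → C → C) (hg : ∀ n, Continuous (g n)) :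
    ∃ h : ℕ → ℕ, Monotone h ∧ (∀ n, n < h n) ∧
      (∀ m j k, j ≤ m → k ≤ m → ∀ x y : C, (∀ i, i < h m → x i = y i) → g j x k = g j y k) ∧
      (∀ m j, j ≤ m → ∀ t : C, (∀ i, m < i → t i = false) →
        (¬ Inf (g j t) → ∀ q, g j t q = true → q < h m) ∧
        (Inf (g j t) → ∃ q, m ≤ q ∧ q < h m ∧ g j t q = true)) := by
  classical
  have hu : ∀ j k, ∃ N, ∀ x y : C, (∀ i, i < N → x i = y i) → g j x k = g j y k := fun j k =>
    exists_use (fun x => g j x k) ((continuous_apply k).comp (hg j))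
  choose u hu using hu
  have hb : ∀ (m j : ℕ) (s : Finset ℕ), ∃ b, (¬ Inf (g j (ind s)) → ∀ q, g j (ind s) q = true →
      q < b) ∧ (Inf (g j (ind s)) → ∃ q, m ≤ q ∧ q < b ∧ g j (ind s) q = true) := fun m j s =>
    exists_bound _ m
  choose b hb using hb
  obtain ⟨a, ha⟩ : ∃ a : ℕ → ℕ, a = fun m => (∑ j ∈ Finset.range (m + 1),
      ∑ k ∈ Finset.range (m + 1), u j k) + ∑ j ∈ Finset.range (m + 1),
      ∑ s ∈ (Finset.range (m + 1)).powerset, b m j s := ⟨_, rfl⟩
  obtain ⟨h, hh⟩ : ∃ h : ℕ → ℕ, h = fun m => m + 1 + ∑ i ∈ Finset.range (m + 1), a i := ⟨_, rfl⟩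
  have hah : ∀ m, a m ≤ h m := by
    intro m
    have h1 : a m ≤ ∑ i ∈ Finset.range (m + 1), a i :=
      Finset.single_le_sum (f := fun i => a i) (fun _ _ => Nat.zero_le _)
        (Finset.mem_range.2 (Nat.lt_succ_self m))
    rw [hh]
    dsimp only
    omega
  have hua : ∀ m j k, j ≤ m → k ≤ m → u j k ≤ a m := by
    intro m j k hj hk
    have h1 : u j k ≤ ∑ k ∈ Finset.range (m + 1), u j k :=
      Finset.single_le_sum (f := fun k => u j k) (fun _ _ => Nat.zero_le _)
        (Finset.mem_range.2 (Nat.lt_succ_of_le hk))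
    have h2 : ∑ k ∈ Finset.range (m + 1), u j k ≤
        ∑ j ∈ Finset.range (m + 1), ∑ k ∈ Finset.range (m + 1), u j k :=
      Finset.single_le_sum (f := fun j => ∑ k ∈ Finset.range (m + 1), u j k)
        (fun _ _ => Nat.zero_le _) (Finset.mem_range.2 (Nat.lt_succ_of_le hj))
    rw [ha]
    dsimp only
    omega
  have hba : ∀ m j (s : Finset ℕ), j ≤ m → s ⊆ Finset.range (m + 1) → b m j s ≤ a m := by
    intro m j s hj hs
    have h1 : b m j s ≤ ∑ s ∈ (Finset.range (m + 1)).powerset, b m j s :=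
      Finset.single_le_sum (f := fun s => b m j s) (fun _ _ => Nat.zero_le _)
        (Finset.mem_powerset.2 hs)
    have h2 : ∑ s ∈ (Finset.range (m + 1)).powerset, b m j s ≤
        ∑ j ∈ Finset.range (m + 1), ∑ s ∈ (Finset.range (m + 1)).powerset, b m j s :=
      Finset.single_le_sum (f := fun j => ∑ s ∈ (Finset.range (m + 1)).powerset, b m j s)
        (fun _ _ => Nat.zero_le _) (Finset.mem_range.2 (Nat.lt_succ_of_le hj))
    rw [ha]
    dsimp only
    omega
  refine ⟨h, ?_, ?_, ?_, ?_⟩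
  · refine monotone_nat_of_le_succ fun n => ?_
    rw [hh]
    dsimp only
    rw [Finset.sum_range_succ _ (n + 1)]
    omega
  · intro n
    rw [hh]
    dsimp only
    omega
  · intro m j k hj hk x y hxy
    exact hu j k x y fun i hi => hxy i (lt_of_lt_of_le hi ((hua m j k hj hk).trans (hah m)))
  · intro m j hj t ht
    obtain ⟨s, hs⟩ : ∃ s : Finset ℕ, s = (Finset.range (m + 1)).filter fun i => t i = true :=
      ⟨_, rfl⟩
    have hts : t = ind s := by
      funext i
      refine Bool.eq_iff_iff.2 ?_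
      unfold ind
      rw [decide_eq_true_iff, hs, Finset.mem_filter, Finset.mem_range]
      constructor
      · intro hi
        refine ⟨?_, hi⟩
        by_contra hcon
        rw [ht i (by omega)] at hi
        exact absurd hi (by decide)
      · exact fun h1 => h1.2
    have hsub : s ⊆ Finset.range (m + 1) := by rw [hs]; exact Finset.filter_subset _ _
    have h1 : b m j s ≤ h m := (hba m j s hj hsub).trans (hah m)
    rw [hts]
    refine ⟨fun h2 q hq => lt_of_lt_of_le ((hb m j s).1 h2 q hq) h1, fun h2 => ?_⟩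
    obtain ⟨q, hq1, hq2, hq3⟩ := (hb m j s).2 h2
    exact ⟨q, hq1, lt_of_lt_of_le hq2 h1, hq3⟩

section

variable {g : ℕ → C → C} {h : ℕ → ℕ} (hm : Monotone h) (hlt : ∀ n, n < h n)
  (h1 : ∀ m j k, j ≤ m → k ≤ m → ∀ x y : C, (∀ i, i < h m → x i = y i) → g j x k = g j y k)
  (h2 : ∀ m j, j ≤ m → ∀ t : C, (∀ i, m < i → t i = false) →
        (¬ Inf (g j t) → ∀ q, g j t q = true → q < h m) ∧
        (Inf (g j t) → ∃ q, m ≤ q ∧ q < h m ∧ g j t q = true))

include hm hlt h1 h2

/-- a gap of `y` before `n` is not a gap of `x` -/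
theorem no_gap {x y : C} {i j a n : ℕ} (hi : i ≤ a) (hj : j ≤ a) (hxy : g j y = x)
    (hyx : g i x = y) (hya : ∀ q, a ≤ q → q < n → y q = false) (hyn : y n = true)
    (hxa : ∀ q, a ≤ q → q < h n → x q = false) (hn : h (h a) ≤ n) : False := by
  have haa : a < h a := hlt a
  have haa' : h a < h (h a) := hlt (h a)
  have hnn : n < h n := hlt n
  obtain ⟨t, ht⟩ : ∃ t : C, t = fun q => if q < a then y q else false := ⟨_, rfl⟩
  have ht0 : ∀ q, a < q → t q = false := by
    intro q hq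
    rw [ht]
    exact if_neg (by omega)
  have hty : ∀ q, q < n → t q = y q := by
    intro q hq
    rw [ht]
    dsimp only
    split_ifs with h3
    · rfl
    · exact (hya q (by omega) hq).symm
  obtain ⟨w, hw⟩ : ∃ w : C, w = g j t := ⟨_, rfl⟩
  have hxw : ∀ q, q < h a → x q = w q := by
    intro q hq
    rw [← hxy, hw]
    exact h1 (h a) j q (by omega) hq.le y t fun i hi => (hty i (by omega)).symm
  have hwt := h2 a j hj t ht0
  rw [← hw] at hwt
  have hwI : ¬ Inf w := by
    intro hI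
    obtain ⟨q, hq1, hq2, hq3⟩ := hwt.2 hI
    rw [← hxw q hq2, hxa q hq1 (by omega)] at hq3
    exact absurd hq3 (by decide)
  have hwa : ∀ q, w q = true → q < a := by
    intro q hq
    have h3 := hwt.1 hwI q hq
    by_contra hcon
    rw [← hxw q h3, hxa q (by omega) (by omega)] at hq
    exact absurd hq (by decide)
  have hwf : ∀ q, a ≤ q → w q = false := by
    intro q hq
    rw [← Bool.not_eq_true]
    intro h3
    have := hwa q h3
    omega
  have hxw' : ∀ q, q < h n → x q = w q := by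
    intro q hq
    rcases lt_or_ge q a with h3 | h3
    · exact hxw q (by omega)
    · rw [hxa q h3 hq, hwf q h3]
  have hyw : ∀ q, q ≤ n → y q = g i w q := by
    intro q hq
    rw [← hyx]
    exact h1 n i q (by omega) hq x w hxw'
  have hw2 := h2 a i hi w fun q hq => hwf q hq.le
  by_cases hI : Inf (g i w)
  · obtain ⟨q, hq1, hq2, hq3⟩ := hw2.2 hI
    rw [← hyw q (by omega), hya q hq1 (by omega)] at hq3
    exact absurd hq3 (by decide)
  · have h3 := hw2.1 hI n (by rw [← hyw n le_rfl]; exact hyn)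
    omega

/-- the elements of a sparse set are close to the elements of the equivalent sets -/
theorem cover {x y : C} {i j : ℕ} (hxy : g j y = x) (hyx : g i x = y)
    (hsp : ∀ k k', y k = true → y k' = true → k < k' → h (h (h k)) ≤ k') (n : ℕ)
    (hn : h (h (i + j)) ≤ n) (hyn : y n = true) :
    ∃ m, x m = true ∧ Rel (fun k => h (h (h k))) 1 n m := by
  classical
  by_contra hcon
  push Not at hcon
  have hle : ∀ k, k ≤ h k := fun k => (hlt k).le
  have hx : ∀ m, x m = true → m < h n → h (h (h m)) ≤ n := by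
    intro m hxm hmn
    by_contra h3
    refine hcon m hxm ⟨?_, ?_⟩
    · exact hmn.le.trans ((hle _).trans (hle _))
    · exact (not_le.1 h3).le
  obtain ⟨S, hS⟩ : ∃ S : Finset ℕ, S = (Finset.range (h n)).filter fun q =>
    x q = true ∨ (y q = true ∧ q < n) := ⟨_, rfl⟩
  have hSm : ∀ q, q ∈ S ↔ q < h n ∧ (x q = true ∨ (y q = true ∧ q < n)) := by
    intro q
    rw [hS, Finset.mem_filter, Finset.mem_range]
  obtain ⟨a, ha⟩ : ∃ a, a = max (i + j) (S.sup fun q => q + 1) := ⟨_, rfl⟩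
  have haS : ∀ q ∈ S, q < a := by
    intro q hq
    have h3 : q + 1 ≤ S.sup fun q => q + 1 := Finset.le_sup (f := fun q => q + 1) hq
    have h4 := le_max_right (i + j) (S.sup fun q => q + 1)
    omega
  have hmax : ∀ b c, h (h b) ≤ n → h (h c) ≤ n → h (h (max b c)) ≤ n := by
    intro b c hb hc
    rcases le_total b c with h3 | h3
    · rw [max_eq_right h3]; exact hc
    · rw [max_eq_left h3]; exact hb
  have hha : h (h a) ≤ n := by
    rw [ha]
    refine hmax _ _ hn ?_
    refine Finset.sup_induction (p := fun b => h (h b) ≤ n) ?_ (fun b hb c hc => hmax b c hb hc) ?_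
    · exact (hm (hm (Nat.zero_le _))).trans hn
    · intro q hq
      have h3 : h (h (q + 1)) ≤ h (h (h q)) := hm (hm (hlt q))
      refine h3.trans ?_
      rcases ((hSm q).1 hq).2 with h4 | h4
      · exact hx q h4 ((hSm q).1 hq).1
      · exact hsp q n h4.1 hyn h4.2
  have hia := le_max_left (i + j) (S.sup fun q => q + 1)
  refine no_gap hm hlt h1 h2 (a := a) (by omega) (by omega) hxy hyx ?_ hyn ?_ hha
  · intro q hq hqn
    rw [← Bool.not_eq_true]
    intro h3
    have := haS q ((hSm q).2 ⟨hqn.trans (hlt n), Or.inr ⟨h3, hqn⟩⟩)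
    omega
  · intro q hq hqn
    rw [← Bool.not_eq_true]
    intro h3
    have := haS q ((hSm q).2 ⟨hqn, Or.inl h3⟩)
    omega

end

theorem Closed.inf_mem {F : Set (Set C)} (hF : Closed F) {D : Set C} (hD : D ∈ F) {a b : C}
    (ha : a ∈ D) (hb : b ∉ D) : {x : C | Inf x} ∈ F := by
  classical
  have h1 : {x : C | Inf x} = ⋂ n : ℕ, ⋃ k : ℕ, if n ≤ k then {x : C | x k = true} else ∅ := by
    ext x
    simp only [Set.mem_iInter, Set.mem_iUnion, Set.mem_ofPred_eq]
    refine forall_congr' fun n => exists_congr fun k => ?_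
    split_ifs with h2
    · exact ⟨fun h3 => h3.2, fun h3 => ⟨h2, h3⟩⟩
    · exact ⟨fun h3 => absurd h3.1 h2, fun h3 => absurd h3 (Set.notMem_empty _)⟩
  rw [h1]
  refine hF.inter _ fun n => hF.union _ fun k => ?_
  split_ifs
  · exact hF.point_mem hD ha hb k
  · exact hF.empty_mem hD

theorem Closed.sparse_mem {F : Set (Set C)} (hF : Closed F) {D : Set C} (hD : D ∈ F) {a b : C}
    (ha : a ∈ D) (hb : b ∉ D) (h : ℕ → ℕ) :
    {x : C | ∀ k k', x k = true → x k' = true → k < k' → h k ≤ k'} ∈ F := by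
  classical
  have huniv : (Set.univ : Set C) ∈ F := by
    have := hF.compl _ (hF.empty_mem hD)
    rwa [Set.compl_empty] at this
  have h1 : {x : C | ∀ k k', x k = true → x k' = true → k < k' → h k ≤ k'} =
      ⋂ k, ⋂ k', if k < k' ∧ k' < h k then ({x : C | x k = true} ∩ {x : C | x k' = true})ᶜ
        else Set.univ := by
    ext x
    simp only [Set.mem_iInter, Set.mem_ofPred_eq]
    refine forall_congr' fun k => forall_congr' fun k' => ?_
    split_ifs with h2
    · constructor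
      · intro h3 h4
        have := h3 h4.1 h4.2 h2.1
        omega
      · intro h3 h4 h5 _
        exact absurd ⟨h4, h5⟩ h3
    · refine ⟨fun _ => Set.mem_univ _, fun _ _ _ h3 => ?_⟩
      by_contra h4
      exact h2 ⟨h3, by omega⟩
  rw [h1]
  refine hF.inter _ fun k => hF.inter _ fun k' => ?_
  split_ifs
  · exact hF.compl _ (hF.inter2 (hF.point_mem hD ha hb k) (hF.point_mem hD ha hb k'))
  · exact huniv

/-- **Theorem, third part.** -/
theorem countable_reduction (E : C → C → Prop) (hE : Equivalence E) (g : ℕ → C → C)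
    (hg : ∀ n, Continuous (g n)) (hEg : ∀ x y, E x y → ∃ n, g n x = y) (F : Set (Set C))
    (hF : Closed F) (hEF : ∀ n, {x | E x (g n x)} ∈ F)
    (hinv : ∀ B ∈ F, (∀ x y, E x y → (x ∈ B ↔ y ∈ B)) → Ramsey B)
    {A : Set C} (hA : A ∈ F) : Ramsey A := by
  classical
  obtain ⟨h', hm', hlt', h1, h2⟩ := exists_scale g hg
  obtain ⟨h, hh⟩ : ∃ h : ℕ → ℕ, h = fun k => h' (h' (h' k)) := ⟨_, rfl⟩
  have hm : Monotone h := by
    rw [hh]
    exact fun a b hab => hm' (hm' (hm' hab))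
  have hlt : ∀ n, n < h n := by
    intro n
    rw [hh]
    exact (hlt' n).trans ((hlt' _).trans (hlt' _))
  refine tail_reduction hF (fun D hD hT _ => ?_) hA
  by_contra hnR
  have hone : Inf fun _ => true := fun n => ⟨n, le_rfl, rfl⟩
  obtain ⟨a, ha⟩ : ∃ a, a ∈ D := by
    by_contra hcon
    push Not at hcon
    exact hnR ⟨fun _ => true, hone, Or.inr fun x _ _ => hcon x⟩
  obtain ⟨b, hb⟩ : ∃ b, b ∉ D := by
    by_contra hcon
    push Not at hcon
    exact hnR ⟨fun _ => true, hone, Or.inl fun x _ _ => hcon x⟩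
  obtain ⟨P, hP⟩ : ∃ P : Set C, P = {x : C | Inf x} ∩
    {x : C | ∀ k k', x k = true → x k' = true → k < k' → h k ≤ k'} := ⟨_, rfl⟩
  have hPF : P ∈ F := by
    rw [hP]
    exact hF.inter2 (hF.inf_mem hD ha hb) (hF.sparse_mem hD ha hb h)
  -- equivalent sparse sets are close
  have hnear : ∀ x y, x ∈ P → y ∈ P → E x y → Near h x y := by
    intro x y hx hy hxy
    rw [hP] at hx hy
    obtain ⟨i, hi⟩ := hEg x y hxy
    obtain ⟨j, hj⟩ := hEg y x (hE.symm hxy)
    have hx2 := hx.2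
    have hy2 := hy.2
    rw [hh] at hx2 hy2 ⊢
    refine ⟨h' (h' (i + j)), fun n hn hxn => ?_, fun n hn hyn => ?_⟩
    · exact cover hm' hlt' h1 h2 hi hj hx2 n (by rw [add_comm j i]; exact hn) hxn
    · exact cover hm' hlt' h1 h2 hj hi hy2 n hn hyn
  -- saturations
  have hsat : ∀ Q ∈ F, {z | ∃ x, E z x ∧ x ∈ Q} ∈ F := by
    intro Q hQ
    have h3 : {z | ∃ x, E z x ∧ x ∈ Q} = ⋃ n, {x | E x (g n x)} ∩ g n ⁻¹' Q := by
      ext z
      simp only [Set.mem_iUnion]
      constructor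
      · rintro ⟨x, hzx, hx⟩
        obtain ⟨n, rfl⟩ := hEg z x hzx
        exact ⟨n, hzx, hx⟩
      · rintro ⟨n, h4, h5⟩
        exact ⟨g n z, h4, h5⟩
    rw [h3]
    exact hF.union _ fun n => hF.inter2 (hEF n) (hF.preimage Q hQ _ (hg n))
  have hd := fun c => hF.deep_mem hD ha hb h c
  obtain ⟨U, hU⟩ : ∃ U : ℕ → Set C, U = fun c => {z | ∃ x, E z x ∧ x ∈ P ∩ {x | Deep h c x}} :=
    ⟨_, rfl⟩
  obtain ⟨W, hW⟩ : ∃ W : ℕ → Set C, W = fun c =>
    {z | ∃ x, E z x ∧ x ∈ P ∩ ({x | Deep h c x} ∩ lset h c ⁻¹' D)} := ⟨_, rfl⟩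
  have hUF : ∀ c, U c ∈ F := by
    intro c
    rw [hU]
    exact hsat _ (hF.inter2 hPF (hd c))
  have hWF : ∀ c, W c ∈ F := by
    intro c
    rw [hW]
    exact hsat _ (hF.inter2 hPF (hF.inter2 (hd c) (hF.preimage D hD _ (continuous_lset hlt c))))
  have hinvE : ∀ (Q : Set C) (x y : C), E x y →
      ((∃ z, E x z ∧ z ∈ Q) ↔ ∃ z, E y z ∧ z ∈ Q) := by
    intro Q x y hxy
    constructor
    · rintro ⟨z, hz, hzQ⟩
      exact ⟨z, hE.trans (hE.symm hxy) hz, hzQ⟩
    · rintro ⟨z, hz, hzQ⟩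
      exact ⟨z, hE.trans hxy hz, hzQ⟩
  have hUi : ∀ c x y, E x y → (x ∈ U c ↔ y ∈ U c) := by
    intro c x y hxy
    rw [hU]
    exact hinvE _ x y hxy
  have hWi : ∀ c x y, E x y → (x ∈ W c ↔ y ∈ W c) := by
    intro c x y hxy
    rw [hW]
    exact hinvE _ x y hxy
  obtain ⟨B, hB⟩ : ∃ B : Set C, B = W 0 ∪ ((U 0)ᶜ ∩ W 1) := ⟨_, rfl⟩
  have hBF : B ∈ F := by
    rw [hB]
    exact hF.union2 (hWF 0) (hF.inter2 (hF.compl _ (hUF 0)) (hWF 1))
  have hBi : ∀ x y, E x y → (x ∈ B ↔ y ∈ B) := by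
    intro x y hxy
    rw [hB]
    show (x ∈ W 0 ∨ (¬ x ∈ U 0 ∧ x ∈ W 1)) ↔ (y ∈ W 0 ∨ (¬ y ∈ U 0 ∧ y ∈ W 1))
    rw [hWi 0 x y hxy, hUi 0 x y hxy, hWi 1 x y hxy]
  have hUd : ∀ c y, y ∈ P → (y ∈ U c ↔ Deep h c y) := by
    intro c y hy
    rw [hU]
    constructor
    · rintro ⟨x, hyx, hx, hxd⟩
      have hxd' : Deep h c x := hxd
      exact hxd'.near hm hlt (hnear x y hx hy (hE.symm hyx))
    · intro hyd
      exact ⟨y, hE.refl y, hy, hyd⟩
  have hWd : ∀ c y, c < 2 → y ∈ P → Deep h c y → (y ∈ W c ↔ lset h c y ∈ D) := by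
    intro c y hc hy hyd
    rw [hW]
    constructor
    · rintro ⟨x, hyx, hx, -, hxD⟩
      exact (hT _ _ (lset_near hm hlt hc hyd (hnear y x hy hx hyx))).2 hxD
    · intro hyD
      exact ⟨y, hE.refl y, hy, hyd, hyD⟩
  have hWU : ∀ c y, y ∈ W c → y ∈ U c := by
    intro c y hy
    rw [hW] at hy
    rw [hU]
    obtain ⟨x, hyx, hx, hxd, -⟩ := hy
    exact ⟨x, hyx, hx, hxd⟩
  obtain ⟨K, hK, hKB⟩ := hinv B hBF hBi
  apply hnR
  obtain ⟨K1, hK1, hK1K, hK1s⟩ := sparse K hK h
  have hsubP : ∀ x, Inf x → Sub x K1 → x ∈ P := by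
    intro x hx hxK
    rw [hP]
    exact ⟨hx, fun k k' hk hk' => hK1s k k' (hxK k hk) (hxK k' hk')⟩
  by_cases hex : ∃ K', Inf K' ∧ Sub K' K1 ∧ Deep h 0 K'
  · obtain ⟨K', hK', hK'K, hK'd⟩ := hex
    refine lset_ramsey hlt (c := 0) (by omega) K' hK' ?_
    have h3 : ∀ x, Inf x → Sub x K' → (x ∈ B ↔ lset h 0 x ∈ D) := by
      intro x hx hxK
      have hxP := hsubP x hx (hxK.trans hK'K)
      rw [← hWd 0 x (by omega) hxP (hK'd.sub hxK), hB]
      constructor
      · rintro (h4 | h4)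
        · exact h4
        · exact absurd ((hUd 0 x hxP).2 (hK'd.sub hxK)) h4.1
      · exact Or.inl
    rcases hKB with h4 | h4
    · exact Or.inl fun x hx hxK => (h3 x hx hxK).1 (h4 x hx (hxK.trans (hK'K.trans hK1K)))
    · exact Or.inr fun x hx hxK h5 =>
        h4 x hx (hxK.trans (hK'K.trans hK1K)) ((h3 x hx hxK).2 h5)
  · push Not at hex
    obtain ⟨K', hK', hK'K, hK'd⟩ := exists_deep hm hlt K1 hK1
    have hK'1 : Deep h 1 K' := hK'd.resolve_left (hex K' hK' hK'K)
    refine lset_ramsey hlt (c := 1) (by omega) K' hK' ?_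
    have h3 : ∀ x, Inf x → Sub x K' → (x ∈ B ↔ lset h 1 x ∈ D) := by
      intro x hx hxK
      have hxP := hsubP x hx (hxK.trans hK'K)
      have hx0 : ¬ x ∈ U 0 := fun h4 => hex x hx (hxK.trans hK'K) ((hUd 0 x hxP).1 h4)
      rw [← hWd 1 x (by omega) hxP (hK'1.sub hxK), hB]
      constructor
      · rintro (h4 | h4)
        · exact absurd (hWU 0 x h4) hx0
        · exact h4.2
      · exact fun h4 => Or.inr ⟨hx0, h4⟩
    rcases hKB with h4 | h4
    · exact Or.inl fun x hx hxK => (h3 x hx hxK).1 (h4 x hx (hxK.trans (hK'K.trans hK1K)))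
    · exact Or.inr fun x hx hxK h5 =>
        h4 x hx (hxK.trans (hK'K.trans hK1K)) ((h3 x hx hxK).2 h5)

end Pool.Agent.Work.RamseyAD
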