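import Mathlib
import Pool.Agent.Work.MP_f36782_h69.Defs

set_option autoImplicit false

/-!
Definitions: codes for sets and lists, the map `tmap`.
-/

namespace Pool.Agent.Work.RamseyAD

/-- the point of Cantor space which codes the set `S` -/
noncomputable def code (S : Set ℕ) : C := fun k => open Classical in decide (k ∈ S)

/-- the list coded by `c` -/
def dec (c : ℕ) : List ℕ :=
  ((Encodable.decode (Nat.unpair c).2 : Option (List ℕ)).getD []).take (Nat.unpair c).1

/-- the value which `b` prescribes for the finite set `s`: the entry with the number of `s` in the
list coded by `b` (the value is `b` if there is no such entry) -/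
def val' (b : ℕ) (s : Finset ℕ) : ℕ :=
  (dec (Nat.unpair (b / 2)).1).getD (Encodable.encode s) b

/-- the set of the elements of `x` which are smaller than `b` -/
def smaller (b : ℕ) (x : C) : Finset ℕ := (Finset.range b).filter fun k => x k = true

/-- `enrich x` is obtained from `x` by adding, for each element `b` of `x`, the number which `b`
prescribes for the set of the smaller elements of `x`, if it lies between `b` and the smaller
elements of `x` and its parity is different from the parity of `b` -/
noncomputable def enrich (x : C) : C := fun k => x k || open Classical in
  decide (∃ b, k < b ∧ x b = true ∧ k % 2 ≠ b % 2 ∧ (∀ c, k ≤ c → c < b → x c = false) ∧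
    val' b (smaller b x) = k)

/-- all elements of `x` are even or all are odd -/
def OneParity (x : C) : Prop :=
  (∀ k, x k = true → k % 2 = 0) ∨ (∀ k, x k = true → k % 2 = 1)

/-- `enrich` on the sets of one parity, the identity on all other sets -/
noncomputable def tmap (x : C) : C := open Classical in if OneParity x then enrich x else x

end Pool.Agent.Work.RamseyAD
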