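import Pool.Agent.Work.MP_f36782_h4.Positive
import Pool.Agent.Work.MP_f36782_h82.Defs

set_option autoImplicit false

/-!
The `K_σ` game of Kechris: if an unbounded set `G` of functions has determined games, then a player
who builds a function by finite blocks, each of which starts with a value larger than a number
chosen by the opponent, can reach `G`.
-/

namespace Pool.Agent.Work.RamseyAD

/-! ### Codes for lists -/

/-- a code of the list `l` -/
def cod (l : List ℕ) : ℕ := Nat.pair l.length (Encodable.encode l)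

theorem length_dec (c : ℕ) : (dec c).length ≤ c := by
  unfold dec
  rw [List.length_take]
  exact (min_le_left _ _).trans (Nat.unpair_left_le c)

theorem dec_cod (l : List ℕ) : dec (cod l) = l := by
  simp [dec, cod]

/-! ### The blocks -/

/-- the blocks coded by an increasing sequence `u` -/
def bl (H : ℕ → ℕ) (u : ℕ → ℕ) : ℕ → List ℕ
  | 0 => dec (u 0)
  | j + 1 => (H (u (3 * j + 2)) + (Nat.unpair (u (3 * (j + 1)) - u (3 * j + 2) - 1)).1) ::
      dec (Nat.unpair (u (3 * (j + 1)) - u (3 * j + 2) - 1)).2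

theorem bl_add_one (H u : ℕ → ℕ) (j : ℕ) : bl H u (j + 1) =
    (H (u (3 * j + 2)) + (Nat.unpair (u (3 * (j + 1)) - u (3 * j + 2) - 1)).1) ::
      dec (Nat.unpair (u (3 * (j + 1)) - u (3 * j + 2) - 1)).2 := rfl

/-- the concatenation of the first blocks -/
def flat (H : ℕ → ℕ) (u : ℕ → ℕ) : ℕ → List ℕ
  | 0 => []
  | j + 1 => flat H u j ++ bl H u j

/-- the function built by the blocks -/
def phi (H : ℕ → ℕ) (u : ℕ → ℕ) (n : ℕ) : ℕ := (flat H u (n + 2)).getD n 0

theorem flat_length (H u : ℕ → ℕ) (j : ℕ) : j ≤ (flat H u (j + 1)).length := by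
  induction j with
  | zero => exact Nat.zero_le _
  | succ j ih =>
    have h1 : flat H u (j + 1 + 1) = flat H u (j + 1) ++ bl H u (j + 1) := rfl
    rw [h1, List.length_append]
    have h2 : 1 ≤ (bl H u (j + 1)).length := by
      rw [bl_add_one, List.length_cons]
      omega
    omega

theorem flat_prefix (H u : ℕ → ℕ) {i j : ℕ} (h : i ≤ j) : ∃ r, flat H u j = flat H u i ++ r := by
  induction j, h using Nat.le_induction with
  | base => exact ⟨[], by simp⟩
  | succ j _ ih =>
    obtain ⟨r, hr⟩ := ih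
    refine ⟨r ++ bl H u j, ?_⟩
    rw [← List.append_assoc, ← hr]
    rfl

theorem phi_eq (H u : ℕ → ℕ) (j n : ℕ) (h : n < (flat H u j).length) :
    (flat H u j).getD n 0 = phi H u n := by
  have h1 : n < (flat H u (n + 2)).length := flat_length H u (n + 1)
  unfold phi
  rcases le_total j (n + 2) with h2 | h2
  · obtain ⟨r, hr⟩ := flat_prefix H u h2
    rw [hr, List.getD_append _ _ _ _ h]
  · obtain ⟨r, hr⟩ := flat_prefix H u h2
    rw [hr, List.getD_append _ _ _ _ h1]

theorem bl_congr (H : ℕ → ℕ) {u u' : ℕ → ℕ} (j : ℕ) (h : ∀ i, i ≤ 3 * j → u i = u' i) :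
    bl H u j = bl H u' j := by
  rcases j with _ | j
  · unfold bl
    rw [h 0 le_rfl]
  · rw [bl_add_one, bl_add_one, h (3 * (j + 1)) le_rfl, h (3 * j + 2) (by omega)]

theorem flat_congr (H : ℕ → ℕ) {u u' : ℕ → ℕ} (j : ℕ) (h : ∀ i, i < 3 * j → u i = u' i) :
    flat H u j = flat H u' j := by
  induction j with
  | zero => rfl
  | succ j ih =>
    show flat H u j ++ bl H u j = flat H u' j ++ bl H u' j
    rw [ih fun i hi => h i (by omega), bl_congr H j fun i hi => h i (by omega)]

theorem continuous_phi (H : ℕ → ℕ) : Continuous (phi H) := by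
  refine continuous_pi fun n => ?_
  have h1 : (fun u => phi H u n) = (fun w : Fin (3 * (n + 2)) → ℕ =>
      phi H (fun k => if hk : k < 3 * (n + 2) then w ⟨k, hk⟩ else 0) n) ∘
      fun (u : ℕ → ℕ) (i : Fin (3 * (n + 2))) => u i := by
    funext u
    show phi H u n = phi H _ n
    unfold phi
    rw [flat_congr H (n + 2) (u := u)]
    intro i hi
    simp only [dif_pos hi]
  rw [h1]
  exact continuous_of_discreteTopology.comp (continuous_pi fun i => continuous_apply (i : ℕ))

/-! ### Complements -/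

theorem det_compl_fun (G : Set (ℕ → ℕ))
    (hdet : ∀ f : (ℕ → ℕ) → (ℕ → ℕ), Continuous f → Determined (f ⁻¹' G))
    (f : (ℕ → ℕ) → (ℕ → ℕ)) (hf : Continuous f) : Determined {z | f z ∉ G} := by
  have hc : Continuous fun z : ℕ → ℕ => f (fun n => z (n + 1)) :=
    hf.comp (continuous_pi fun n => continuous_apply (n + 1))
  have hhist : ∀ (z z' : ℕ → ℕ), (∀ n, z' (n + 1) = z n) → ∀ n,
      hist z' (n + 1) = z' 0 :: hist z n := by
    intro z z' h n
    simp only [hist, List.range_succ_eq_map, List.map_cons, List.map_map]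
    congr 1
    apply List.map_congr_left
    intro k _
    exact h k
  rcases hdet _ hc with ⟨σ, hσ⟩ | ⟨τ, hτ⟩
  · right
    refine ⟨fun l => σ (σ [] :: l), fun z hz => ?_⟩
    let z' : ℕ → ℕ := fun n => Nat.casesOn n (σ []) z
    have h0 : z' 0 = σ [] := rfl
    have h1 : ∀ n, z' (n + 1) = z n := fun n => rfl
    have := hσ z' (by
      intro n
      rcases n with _ | n
      · exact h0
      · show z' (2 * n + 1 + 1) = σ (hist z' (2 * n + 1 + 1))
        rw [h1, hhist z z' h1, h0, hz n])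
    intro hcon
    apply hcon
    exact this
  · left
    refine ⟨fun l => τ (0 :: l), fun z hz => ?_⟩
    let z' : ℕ → ℕ := fun n => Nat.casesOn n 0 z
    have h0 : z' 0 = 0 := rfl
    have h1 : ∀ n, z' (n + 1) = z n := fun n => rfl
    exact hτ z' (by
      intro n
      show z' (2 * n + 1) = τ (hist z' (2 * n + 1))
      rw [h1, hhist z z' h1, h0, hz n])

/-! ### A bound for the branches of a finitely branching tree -/

/-- the nodes -/
def nodes (b : List ℕ → ℕ) (v : ℕ) : ℕ → Finset (List ℕ)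
  | 0 => {[v]}
  | i + 1 => (nodes b v i).biUnion fun s => (Finset.range (b s)).image fun x => s ++ [x]

theorem tree_bound (b : List ℕ → ℕ) (v : ℕ) : ∃ B : ℕ → ℕ, ∀ g : ℕ → ℕ, g 0 = v →
    (∀ i, g (i + 1) < b (hist g (i + 1))) → ∀ i, g (i + 1) ≤ B i := by
  refine ⟨fun i => ∑ s ∈ nodes b v i, b s, fun g hg hb i => ?_⟩
  have h1 : ∀ i, hist g (i + 1) ∈ nodes b v i := by
    intro i
    induction i with
    | zero =>
      show hist g 1 ∈ ({[v]} : Finset (List ℕ))
      rw [Finset.mem_singleton, ← hg]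
      rfl
    | succ i ih =>
      show hist g (i + 1 + 1) ∈ (nodes b v i).biUnion _
      rw [Finset.mem_biUnion]
      refine ⟨hist g (i + 1), ih, ?_⟩
      rw [Finset.mem_image]
      exact ⟨g (i + 1), Finset.mem_range.2 (hb i), (hist_succ g (i + 1)).symm⟩
  exact (hb i).le.trans (Finset.single_le_sum (f := fun s => b s) (fun _ _ => Nat.zero_le _) (h1 i))

/-! ### Plays against a strategy of player I -/

/-- the next move: player I follows `σ`, player II plays `c j` in the round `3 j` and `0` else -/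
def kmv (σ : List ℕ → ℕ) (c : ℕ → ℕ) (l : List ℕ) : ℕ :=
  if l.length % 2 = 0 then σ l else
    if l.length / 2 % 3 = 0 then c (l.length / 2 / 3) else 0

/-- the partial plays -/
def kh (σ : List ℕ → ℕ) (c : ℕ → ℕ) : ℕ → List ℕ
  | 0 => []
  | n + 1 => kh σ c n ++ [kmv σ c (kh σ c n)]

/-- the play -/
def kz (σ : List ℕ → ℕ) (c : ℕ → ℕ) (n : ℕ) : ℕ := kmv σ c (kh σ c n)

theorem hist_kz (σ : List ℕ → ℕ) (c : ℕ → ℕ) (n : ℕ) : hist (kz σ c) n = kh σ c n := by
  induction n with
  | zero => rfl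
  | succ n ih =>
    rw [hist_succ, ih]
    rfl

theorem kh_length (σ : List ℕ → ℕ) (c : ℕ → ℕ) (n : ℕ) : (kh σ c n).length = n := by
  rw [← hist_kz, hist_length]

theorem kz_even (σ : List ℕ → ℕ) (c : ℕ → ℕ) (n : ℕ) :
    kz σ c (2 * n) = σ (hist (kz σ c) (2 * n)) := by
  rw [hist_kz]
  unfold kz kmv
  rw [if_pos (by rw [kh_length]; omega)]

theorem kz_odd (σ : List ℕ → ℕ) (c : ℕ → ℕ) (j : ℕ) : kz σ c (2 * (3 * j) + 1) = c j := by
  unfold kz kmv
  rw [kh_length, if_neg (by omega), if_pos (by omega)]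
  congr 1
  omega

theorem kh_congr (σ : List ℕ → ℕ) {c c' : ℕ → ℕ} (j : ℕ) (h : ∀ i, i < j → c i = c' i) (n : ℕ)
    (hn : n ≤ 6 * j + 1) : kh σ c n = kh σ c' n := by
  induction n with
  | zero => rfl
  | succ n ih =>
    show kh σ c n ++ [kmv σ c (kh σ c n)] = kh σ c' n ++ [kmv σ c' (kh σ c' n)]
    rw [ih (by omega)]
    congr 2
    unfold kmv
    rw [kh_length]
    split_ifs with h1 h2
    · rfl
    · exact h _ (by omega)
    · rfl

theorem kz_congr (σ : List ℕ → ℕ) {c c' : ℕ → ℕ} (j : ℕ) (h : ∀ i, i < j → c i = c' i) (n : ℕ)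
    (hn : n ≤ 6 * j) : kz σ c n = kz σ c' n := by
  rcases Nat.eq_zero_or_pos j with h0 | h0
  · have h1 : n = 0 := by omega
    subst h1
    rfl
  · have h1 := kh_congr σ j h (n + 1) (by omega)
    have h2 : kh σ c (n + 1) = kh σ c n ++ [kz σ c n] := rfl
    have h3 : kh σ c' (n + 1) = kh σ c' n ++ [kz σ c' n] := rfl
    rw [h2, h3, kh_congr σ j h n (by omega)] at h1
    simpa using h1

/-- the resulting increasing sequence -/
noncomputable def ku' (σ : List ℕ → ℕ) (c : ℕ → ℕ) : ℕ → ℕ := outcome {n | n % 3 = 0} (kz σ c)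

theorem ku'_congr (σ : List ℕ → ℕ) {c c' : ℕ → ℕ} (j : ℕ) (h : ∀ i, i < j → c i = c' i) (n : ℕ)
    (hn : n < 3 * j) : ku' σ c n = ku' σ c' n := by
  unfold ku' outcome
  refine cum_congr _ _ n fun i hi => kz_congr σ j h _ ?_
  unfold ctr
  split_ifs with h1
  · have h2 : i % 3 = 0 := h1
    omega
  · omega

theorem ku'_zero (σ : List ℕ → ℕ) (c : ℕ → ℕ) : ku' σ c 0 = c 0 := by
  unfold ku' outcome cum
  have h1 : ctr {n | n % 3 = 0} 0 = 1 := by
    unfold ctr
    rw [if_pos (by rfl)]
  simp only [Finset.range_zero, Finset.sum_empty, zero_add, h1]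
  exact kz_odd σ c 0

theorem ku'_succ (σ : List ℕ → ℕ) (c : ℕ → ℕ) (j : ℕ) :
    ku' σ c (3 * (j + 1)) - ku' σ c (3 * j + 2) - 1 = c (j + 1) := by
  unfold ku' outcome
  have h1 : 3 * (j + 1) = 3 * j + 2 + 1 := by ring
  rw [h1, cum_succ]
  have h2 : ctr {n | n % 3 = 0} (3 * j + 2 + 1) = 2 * (3 * (j + 1)) + 1 := by
    have hm : 3 * j + 2 + 1 ∈ {n | n % 3 = 0} := by
      show (3 * j + 2 + 1) % 3 = 0
      omega
    unfold ctr
    rw [if_pos hm]
    ring
  simp only [h2]
  rw [kz_odd]
  omega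

theorem bl_zero (H : ℕ → ℕ) (σ : List ℕ → ℕ) (c : ℕ → ℕ) : bl H (ku' σ c) 0 = dec (c 0) := by
  unfold bl
  rw [ku'_zero]

theorem bl_succ (H : ℕ → ℕ) (σ : List ℕ → ℕ) (c : ℕ → ℕ) (j : ℕ) :
    bl H (ku' σ c) (j + 1) = (H (ku' σ c (3 * j + 2)) + (Nat.unpair (c (j + 1))).1) ::
      dec (Nat.unpair (c (j + 1))).2 := by
  rw [bl_add_one, ku'_succ]

/-! ### Positions -/

/-- the sequence with the initial part `l` -/
def cs (l : List ℕ) (i : ℕ) : ℕ := l.getD i 0

/-- the finite function built in the position `l` -/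
noncomputable def gp (H : ℕ → ℕ) (σ : List ℕ → ℕ) (l : List ℕ) : List ℕ :=
  flat H (ku' σ (cs l)) l.length

/-- the bound for the first value of the next block -/
noncomputable def bd (H : ℕ → ℕ) (σ : List ℕ → ℕ) (l : List ℕ) : ℕ :=
  if l = [] then 0 else H (ku' σ (cs l) (3 * l.length - 1))

theorem cs_append (l : List ℕ) (c i : ℕ) (h : i < l.length) : cs (l ++ [c]) i = cs l i :=
  List.getD_append _ _ _ _ h

theorem cs_last (l : List ℕ) (c : ℕ) : cs (l ++ [c]) l.length = c := by
  unfold cs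
  rw [List.getD_append_right _ _ _ _ le_rfl, Nat.sub_self]
  rfl

theorem gp_append (H : ℕ → ℕ) (σ : List ℕ → ℕ) (l : List ℕ) (c : ℕ) :
    gp H σ (l ++ [c]) = gp H σ l ++
      if l = [] then dec c else (bd H σ l + (Nat.unpair c).1) :: dec (Nat.unpair c).2 := by
  unfold gp
  have h1 : (l ++ [c]).length = l.length + 1 := by simp
  rw [h1]
  show flat H (ku' σ (cs (l ++ [c]))) l.length ++ bl H (ku' σ (cs (l ++ [c]))) l.length = _
  have h2 : ∀ i, i < 3 * l.length → ku' σ (cs (l ++ [c])) i = ku' σ (cs l) i := fun i hi =>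
    ku'_congr σ l.length (fun k hk => cs_append l c k hk) i hi
  rw [flat_congr H l.length h2]
  congr 1
  rcases hl : l.length with _ | j
  · have h3 : l = [] := List.length_eq_zero_iff.1 hl
    rw [if_pos h3, bl_zero]
    congr 1
    have := cs_last l c
    rwa [hl] at this
  · have h3 : l ≠ [] := by
      intro h
      rw [h] at hl
      simp at hl
    rw [if_neg h3, bl_succ]
    have h4 : cs (l ++ [c]) (j + 1) = c := by
      have := cs_last l c
      rwa [hl] at this
    rw [h4, h2 (3 * j + 2) (by omega)]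
    unfold bd
    rw [if_neg h3]
    have h5 : 3 * l.length - 1 = 3 * j + 2 := by omega
    rw [h5]

/-- the move which adds the block `s` -/
noncomputable def ext (H : ℕ → ℕ) (σ : List ℕ → ℕ) (l s : List ℕ) : ℕ :=
  if l = [] then cod s else Nat.pair (s.headD 0 - bd H σ l) (cod s.tail)

theorem gp_ext (H : ℕ → ℕ) (σ : List ℕ → ℕ) (l s : List ℕ) (hs : s ≠ [])
    (h : bd H σ l ≤ s.headD 0) : gp H σ (l ++ [ext H σ l s]) = gp H σ l ++ s := by
  rw [gp_append]
  congr 1
  unfold ext
  by_cases hl : l = []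
  · rw [if_pos hl, if_pos hl, dec_cod]
  · rw [if_neg hl, if_neg hl, Nat.unpair_pair]
    obtain ⟨a, t, rfl⟩ := List.exists_cons_of_ne_nil hs
    have h1 : bd H σ l ≤ a := h
    simp only [List.headD_cons, List.tail_cons, dec_cod]
    congr 1
    omega

/-- If player I wins the game against the player who builds a function in `G` then `G` is
bounded. -/
theorem kbound (H : ℕ → ℕ) (G : Set (ℕ → ℕ)) (σ : List ℕ → ℕ)
    (hσ : ∀ z : ℕ → ℕ, (∀ n, z (2 * n) = σ (hist z (2 * n))) →
      phi H (outcome {n | n % 3 = 0} z) ∉ G) :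
    ∃ h : ℕ → ℕ, ∀ g ∈ G, ∃ N, ∀ n, N ≤ n → g n ≤ h n := by
  classical
  have hB := fun (l : List ℕ) (v : ℕ) => tree_bound (fun s => bd H σ (l ++ [ext H σ l s])) v
  choose B hB using hB
  obtain ⟨e, he⟩ := exists_surjective_nat (List ℕ × ℕ)
  refine ⟨fun n => ∑ i ∈ Finset.range (n + 1),
    B (e i).1 (e i).2 (n - (gp H σ (e i).1).length - 1), fun g hg => ?_⟩
  by_cases hex : ∀ l, ((∀ n, n < (gp H σ l).length → (gp H σ l).getD n 0 = g n) ∧
      bd H σ l ≤ g (gp H σ l).length) → ∃ c,
      ((∀ n, n < (gp H σ (l ++ [c])).length → (gp H σ (l ++ [c])).getD n 0 = g n) ∧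
      bd H σ (l ++ [c]) ≤ g (gp H σ (l ++ [c])).length)
  · exfalso
    choose! nx hnx using hex
    obtain ⟨c, hc⟩ := exists_play nx
    have hgood : ∀ j, ((∀ n, n < (gp H σ (hist c j)).length → (gp H σ (hist c j)).getD n 0 = g n) ∧
        bd H σ (hist c j) ≤ g (gp H σ (hist c j)).length) := by
      intro j
      induction j with
      | zero =>
        refine ⟨fun n hn => absurd hn (Nat.not_lt_zero n), ?_⟩
        unfold bd
        rw [if_pos (by rfl)]
        exact Nat.zero_le _
      | succ j ih =>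
        rw [hist_succ, hc j]
        exact hnx _ ih
    have hflat : ∀ j, gp H σ (hist c j) = flat H (ku' σ c) j := by
      intro j
      unfold gp
      rw [hist_length]
      exact flat_congr H j fun i hi => ku'_congr σ j (fun k hk => hist_getD c hk) i hi
    have hphi : phi H (ku' σ c) = g := by
      funext n
      have h1 : n < (flat H (ku' σ c) (n + 2)).length := flat_length H _ (n + 1)
      rw [← phi_eq H _ (n + 2) n h1, ← hflat]
      exact (hgood (n + 2)).1 n (by rw [hflat]; exact h1)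
    refine hσ (kz σ c) (kz_even σ c) ?_
    have h2 : phi H (outcome {n | n % 3 = 0} (kz σ c)) = g := hphi
    rw [h2]
    exact hg
  · push Not at hex
    obtain ⟨l, ⟨hl1, hl2⟩, hl3⟩ := hex
    set L := (gp H σ l).length with hL
    obtain ⟨g', hg'⟩ : ∃ g' : ℕ → ℕ, g' = fun i => g (L + i) := ⟨_, rfl⟩
    have hclaim : ∀ i, g' (i + 1) < bd H σ (l ++ [ext H σ l (hist g' (i + 1))]) := by
      intro i
      have h0 : hist g' (i + 1) ≠ [] := by
        intro h
        have := congrArg List.length h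
        rw [hist_length] at this
        simp at this
      have h1 : gp H σ (l ++ [ext H σ l (hist g' (i + 1))]) = gp H σ l ++ hist g' (i + 1) := by
        refine gp_ext H σ l _ h0 ?_
        have h2 : (hist g' (i + 1)).headD 0 = g L := by
          rw [hg']
          simp [hist, List.range_succ_eq_map]
        rw [h2]
        exact hl2
      have h2 := hl3 (ext H σ l (hist g' (i + 1))) (by
        intro n hn
        rw [h1] at hn ⊢
        rcases lt_or_ge n L with h3 | h3
        · rw [List.getD_append _ _ _ _ h3]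
          exact hl1 n h3
        · rw [List.getD_append_right _ _ _ _ h3, ← hL]
          rw [List.length_append, hist_length, ← hL] at hn
          rw [hist_getD g' (by omega), hg']
          show g (L + (n - L)) = g n
          congr 1
          omega)
      rw [h1, List.length_append, hist_length, ← hL] at h2
      rw [hg'] at h2 ⊢
      exact h2
    have h3 := hB l (g L) g' (by rw [hg']; rfl) hclaim
    obtain ⟨i0, hi0⟩ := he (l, g L)
    refine ⟨L + 1 + i0, fun n hn => ?_⟩
    have h4 := h3 (n - L - 1)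
    have h5 : g' (n - L - 1 + 1) = g n := by
      rw [hg']
      show g (L + (n - L - 1 + 1)) = g n
      congr 1
      omega
    rw [h5] at h4
    refine h4.trans ?_
    have h6 : B l (g L) (n - L - 1) =
        (fun i => B (e i).1 (e i).2 (n - (gp H σ (e i).1).length - 1)) i0 := by
      simp only [hi0, hL]
    rw [h6]
    exact Finset.single_le_sum
      (f := fun i => B (e i).1 (e i).2 (n - (gp H σ (e i).1).length - 1))
      (fun _ _ => Nat.zero_le _) (Finset.mem_range.2 (by omega))

/-- **The `K_σ` game.** -/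
theorem ksigma (H : ℕ → ℕ) (G : Set (ℕ → ℕ))
    (hdet : ∀ f : (ℕ → ℕ) → (ℕ → ℕ), Continuous f → Determined (f ⁻¹' G))
    (hunb : ¬ ∃ h : ℕ → ℕ, ∀ g ∈ G, ∃ N, ∀ n, N ≤ n → g n ≤ h n) :
    ∃ τ : List ℕ → ℕ, ∀ z : ℕ → ℕ, (∀ n, z (2 * n + 1) = τ (hist z (2 * n + 1))) →
      phi H (outcome {n | n % 3 = 0} z) ∈ G := by
  rcases det_compl_fun G hdet (fun z => phi H (outcome {n | n % 3 = 0} z))
    ((continuous_phi H).comp (continuous_outcome _)) with ⟨σ, hσ⟩ | ⟨τ, hτ⟩
  · exact absurd (kbound H G σ hσ) hunb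
  · exact ⟨τ, fun z hz => not_not.1 (hτ z hz)⟩

end Pool.Agent.Work.RamseyAD
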