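import Pool.Agent.Work.MP_f36782_h82.Countable
import Pool.Agent.Work.MP_f36782_h4.Points

set_option autoImplicit false

/-!
The theorem of Mathias on countable relations, and the local form of the Ramsey property for sets
which are invariant under a countable equivalence relation.
-/

namespace Pool.Agent.Work.RamseyAD

/-- **Mathias.**  Below every infinite set there is `H` such that `g n x ⊆ H` implies that `g n x` is
almost contained in `x`, for all `n` and all infinite `x ⊆ H`. -/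
theorem mathias (g : ℕ → C → C) (hR : ∀ n k, CRamsey Set.univ {S | g n (chi S) k = true})
    (X : C) (hX : Inf X) : ∃ H, Inf H ∧ Sub H X ∧ ∀ x, Inf x → Sub x H → ∀ n, Sub (g n x) H →
      ∃ N, ∀ k, N ≤ k → g n x k = true → x k = true := by
  classical
  obtain ⟨h, hh, hhX, c, hc⟩ := fusion
    (fun i => {S | g (Nat.unpair i).1 (chi S) (Nat.unpair i).2 = true}) {k | X k = true}
    (infinite_of_Inf hX) (fun i s K _ hK => hR _ _ s K (Set.subset_univ _) hK)
  obtain ⟨H', hH'I, hH'Y, hH's⟩ := sparse (chi (Set.range h))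
    (chi_inf (Set.infinite_range_of_injective hh.injective))
    (fun a => ∑ n ∈ Finset.range (a + 1), h (Nat.pair n a))
  have hread : ∀ (n m : ℕ) (s : Finset ℕ) (z : Set ℕ), n ≤ m → H' m = true →
      (∀ k ∈ s, H' k = true ∧ k < m) → (∀ k ∈ z, H' k = true ∧ m < k) → z.Infinite →
      (g n (chi ((s : Set ℕ) ∪ z)) m = true ↔ c (Nat.pair n m) s = true) := by
    intro n m s z hnm hm hs hz hzI
    have h1 := hc (Nat.pair n m) s (by
      intro k hk
      obtain ⟨j, hj⟩ := (chi_eq_true _ k).1 (hH'Y k (hs k hk).1)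
      refine ⟨j, ?_, hj⟩
      have h2 : j ≤ h j := hh.le_apply
      have h3 := Nat.right_le_pair n m
      have h4 := (hs k hk).2
      omega) z (by
      intro b hb
      obtain ⟨j, rfl⟩ := (chi_eq_true _ b).1 (hH'Y b (hz b hb).1)
      refine ⟨j, ?_, rfl⟩
      have h2 := hH's m (h j) hm (hz _ hb).1 (hz _ hb).2
      have h3 : h (Nat.pair n m) ≤ ∑ n ∈ Finset.range (m + 1), h (Nat.pair n m) :=
        Finset.single_le_sum (f := fun n => h (Nat.pair n m)) (fun _ _ => Nat.zero_le _)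
          (Finset.mem_range.2 (Nat.lt_succ_of_le hnm))
      exact hh.le_iff_le.1 (h3.trans h2)) hzI
    simpa only [Set.mem_ofPred_eq, Nat.unpair_pair] using h1
  obtain ⟨e, he⟩ := exists_surjective_nat (ℕ × Finset ℕ)
  obtain ⟨D, hDH, hDI, hD⟩ := decide_sets
    (fun i => {m | c (Nat.pair (e i).1 m) (e i).2 = true}) {k | H' k = true} (infinite_of_Inf hH'I)
  have hN : ∀ n s, ∃ N, (∀ m ∈ D, N ≤ m → c (Nat.pair n m) s = true) ∨
      (∀ m ∈ D, N ≤ m → ¬ c (Nat.pair n m) s = true) := by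
    intro n s
    obtain ⟨i, hi⟩ := he (n, s)
    rcases hD i with h1 | h1
    · obtain ⟨N, hN⟩ := h1.bddAbove
      refine ⟨N + 1, Or.inl fun m hm hNm => ?_⟩
      by_contra h2
      have h3 := hN ⟨hm, fun h4 => h2 (by
        have h5 : c (Nat.pair (e i).1 m) (e i).2 = true := h4
        rw [hi] at h5
        exact h5)⟩
      omega
    · obtain ⟨N, hN⟩ := h1.bddAbove
      refine ⟨N + 1, Or.inr fun m hm hNm h2 => ?_⟩
      have h3 := hN ⟨hm, show c (Nat.pair (e i).1 m) (e i).2 = true by rw [hi]; exact h2⟩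
      omega
  choose N hN using hN
  have hnx : ∀ m, ∃ m', m' ∈ D ∧ m < m' := fun m => by
    obtain ⟨m', h1, h2⟩ := hDI.exists_gt m
    exact ⟨m', h1, h2⟩
  choose nx hnx using hnx
  obtain ⟨f, hf⟩ : ∃ f : ℕ → ℕ, f = fun a => nx a + 1 + ∑ n ∈ Finset.range (a + 1),
    ∑ s ∈ (Finset.range (a + 1)).powerset, N n s := ⟨_, rfl⟩
  obtain ⟨H, hHI, hHD, hHs⟩ := sparse (chi D) (chi_inf hDI) f
  have hHD' : ∀ k, H k = true → k ∈ D := fun k hk => (chi_eq_true _ k).1 (hHD k hk)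
  have hDH' : ∀ k, k ∈ D → H' k = true := fun k hk => hDH hk
  refine ⟨H, hHI, ?_, fun x hx hxH n hgx => ?_⟩
  · intro k hk
    obtain ⟨j, rfl⟩ := (chi_eq_true _ k).1 (hH'Y k (hDH' k (hHD' k hk)))
    exact hhX ⟨j, rfl⟩
  obtain ⟨a0, ha0, hxa0⟩ := hx n
  refine ⟨a0 + 1, fun m hm hgm => ?_⟩
  by_contra hxm
  have hmH := hgx m hgm
  obtain ⟨s, hs⟩ : ∃ s : Finset ℕ, s = (Finset.range m).filter fun k => x k = true := ⟨_, rfl⟩
  obtain ⟨z, hz⟩ : ∃ z : Set ℕ, z = {k | x k = true ∧ m < k} := ⟨_, rfl⟩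
  have hsm : ∀ k, k ∈ s ↔ k < m ∧ x k = true := by
    intro k
    rw [hs, Finset.mem_filter, Finset.mem_range]
  have hzm : ∀ k, k ∈ z ↔ x k = true ∧ m < k := by
    intro k
    rw [hz]
    rfl
  have hx2 : x = chi ((s : Set ℕ) ∪ z) := by
    funext k
    refine Bool.eq_iff_iff.2 ?_
    rw [chi_eq_true, Set.mem_union, Finset.mem_coe, hsm, hzm]
    constructor
    · intro hk
      rcases lt_trichotomy k m with h1 | h1 | h1
      · exact Or.inl ⟨h1, hk⟩
      · rw [h1] at hk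
        exact absurd hk hxm
      · exact Or.inr ⟨hk, h1⟩
    · rintro (h1 | h1)
      · exact h1.2
      · exact h1.1
  have hzI : z.Infinite := by
    refine Set.infinite_of_not_bddAbove ?_
    rintro ⟨B, hB⟩
    obtain ⟨k, hk, hxk⟩ := hx (max (B + 1) (m + 1))
    have h1 := hB ((hzm k).2 ⟨hxk, by have := le_max_right (B + 1) (m + 1); omega⟩)
    have h2 := le_max_left (B + 1) (m + 1)
    omega
  have hs0 : a0 ∈ s := (hsm a0).2 ⟨by omega, hxa0⟩
  obtain ⟨a, ha, hamax⟩ := s.exists_max_image id ⟨a0, hs0⟩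
  have ha' := (hsm a).1 ha
  have haa0 : a0 ≤ a := hamax a0 hs0
  have hfa : f a ≤ m := hHs a m (hxH a ha'.2) hmH ha'.1
  have hsub : s ⊆ Finset.range (a + 1) := fun k hk =>
    Finset.mem_range.2 (Nat.lt_succ_of_le (hamax k hk))
  have hNa : N n s ≤ m := by
    refine le_trans ?_ hfa
    have h1 : N n s ≤ ∑ s ∈ (Finset.range (a + 1)).powerset, N n s :=
      Finset.single_le_sum (f := fun s => N n s) (fun _ _ => Nat.zero_le _)
        (Finset.mem_powerset.2 hsub)
    have h2 : ∑ s ∈ (Finset.range (a + 1)).powerset, N n s ≤ ∑ n ∈ Finset.range (a + 1),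
        ∑ s ∈ (Finset.range (a + 1)).powerset, N n s :=
      Finset.single_le_sum (f := fun n => ∑ s ∈ (Finset.range (a + 1)).powerset, N n s)
        (fun _ _ => Nat.zero_le _) (Finset.mem_range.2 (by omega))
    rw [hf]
    dsimp only
    omega
  have hsH : ∀ k ∈ s, H' k = true := fun k hk => hDH' k (hHD' k (hxH k ((hsm k).1 hk).2))
  have hzH : ∀ k ∈ z, H k = true := fun k hk => hxH k ((hzm k).1 hk).1
  have hcm : c (Nat.pair n m) s = true := by
    rw [← hread n m s z (by omega) (hDH' m (hHD' m hmH))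
      (fun k hk => ⟨hsH k hk, ((hsm k).1 hk).1⟩)
      (fun k hk => ⟨hDH' k (hHD' k (hzH k hk)), ((hzm k).1 hk).2⟩) hzI, ← hx2]
    exact hgm
  have hall : ∀ m' ∈ D, N n s ≤ m' → c (Nat.pair n m') s = true := by
    rcases hN n s with h1 | h1
    · exact h1
    · exact absurd hcm (h1 m (hHD' m hmH) hNa)
  obtain ⟨hm'D, hmm'⟩ := hnx m
  have hfm : nx m < f m := by
    rw [hf]
    dsimp only
    omega
  have hcm' := hall (nx m) hm'D (by omega)
  have h1 : g n x (nx m) = true := by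
    rw [hx2, hread n (nx m) s z (by omega) (hDH' _ hm'D)
      (fun k hk => ⟨hsH k hk, by have := ((hsm k).1 hk).1; omega⟩)
      (fun k hk => ⟨hDH' k (hHD' k (hzH k hk)), by
        have := hHs m k hmH (hzH k hk) ((hzm k).1 hk).2
        omega⟩) hzI]
    exact hcm'
  have h2 := hHs m (nx m) hmH (hgx _ h1) hmm'
  omega

theorem Closed.sub_mem {F : Set (Set C)} (hF : Closed F) {D : Set C} (hD : D ∈ F) {a b : C}
    (ha : a ∈ D) (hb : b ∉ D) (H : C) : {x : C | Sub x H} ∈ F := by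
  classical
  have huniv : (Set.univ : Set C) ∈ F := by
    have := hF.compl _ (hF.empty_mem hD)
    rwa [Set.compl_empty] at this
  have h1 : {x : C | Sub x H} = ⋂ k, if H k = true then Set.univ else {x : C | x k = true}ᶜ := by
    ext x
    simp only [Set.mem_iInter, Set.mem_ofPred_eq]
    refine forall_congr' fun k => ?_
    split_ifs with h2
    · exact ⟨fun _ => Set.mem_univ _, fun _ _ => h2⟩
    · exact ⟨fun h3 h4 => h2 (h3 h4), fun h3 h4 => absurd h4 h3⟩
  rw [h1]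
  refine hF.inter _ fun k => ?_
  split_ifs
  · exact huniv
  · exact hF.compl _ (hF.point_mem hD ha hb k)

/-- **Theorem, fourth part.** -/
theorem local_reduction (E : C → C → Prop) (hE : Equivalence E) (g : ℕ → C → C)
    (hR : ∀ n k, CRamsey Set.univ {S | g n (chi S) k = true})
    (hEg : ∀ x y, Inf x → Inf y → E x y → ∃ n, g n x = y) (F : Set (Set C))
    (hF : Closed F) (hsat : ∀ Q ∈ F, {z | ∃ x, E z x ∧ x ∈ Q} ∈ F)
    (hinv : ∀ B ∈ F, (∀ x y, E x y → (x ∈ B ↔ y ∈ B)) → ∀ X, Inf X → ∃ H, Inf H ∧ Sub H X ∧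
      ((∀ x, Inf x → Sub x H → x ∈ B) ∨ (∀ x, Inf x → Sub x H → x ∉ B)))
    {A : Set C} (hA : A ∈ F) : Ramsey A := by
  classical
  refine tail_reduction hF (fun D hD hT _ => ?_) hA
  by_contra hnR
  have hone : Inf fun _ => true := fun n => ⟨n, le_rfl, rfl⟩
  obtain ⟨a, ha⟩ : ∃ a, a ∈ D := by
    by_contra hcon
    push Not at hcon
    exact hnR ⟨fun _ => true, hone, Or.inr fun x _ _ => hcon x⟩
  obtain ⟨b, hb⟩ : ∃ b, b ∉ D := by
    by_contra hcon
    push Not at hcon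
    exact hnR ⟨fun _ => true, hone, Or.inl fun x _ _ => hcon x⟩
  obtain ⟨H, hHI, -, hH⟩ := mathias g hR (fun _ => true) hone
  obtain ⟨Q, hQ⟩ : ∃ Q : Set C, Q = {x : C | Inf x} ∩ ({x : C | Sub x H} ∩ D) := ⟨_, rfl⟩
  have hQF : Q ∈ F := by
    rw [hQ]
    exact hF.inter2 (hF.inf_mem hD ha hb) (hF.inter2 (hF.sub_mem hD ha hb H) hD)
  obtain ⟨B, hB⟩ : ∃ B : Set C, B = {z | ∃ x, E z x ∧ x ∈ Q} := ⟨_, rfl⟩
  have hBF : B ∈ F := by
    rw [hB]
    exact hsat Q hQF
  obtain ⟨K, hK, hKH, hKB⟩ := hinv B hBF (by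
    intro x y hxy
    rw [hB]
    constructor
    · rintro ⟨z, hz, hzQ⟩
      exact ⟨z, hE.trans (hE.symm hxy) hz, hzQ⟩
    · rintro ⟨z, hz, hzQ⟩
      exact ⟨z, hE.trans hxy hz, hzQ⟩) H hHI
  have hBD : ∀ x, Inf x → Sub x K → (x ∈ B ↔ x ∈ D) := by
    intro x hx hxK
    rw [hB]
    constructor
    · rintro ⟨y, hxy, hyQ⟩
      rw [hQ] at hyQ
      obtain ⟨hyI, hyH, hyD⟩ := hyQ
      have hyI' : Inf y := hyI
      have hyH' : Sub y H := hyH
      obtain ⟨n, hn⟩ := hEg x y hx hyI' hxy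
      obtain ⟨m, hm⟩ := hEg y x hyI' hx (hE.symm hxy)
      obtain ⟨N1, hN1⟩ := hH x hx (hxK.trans hKH) n (by rw [hn]; exact hyH')
      obtain ⟨N2, hN2⟩ := hH y hyI' hyH' m (by rw [hm]; exact hxK.trans hKH)
      rw [hn] at hN1
      rw [hm] at hN2
      refine (hT _ _ ⟨max N1 N2, fun k hk => ?_⟩).2 hyD
      have h1 := le_max_left N1 N2
      have h2 := le_max_right N1 N2
      exact Bool.eq_iff_iff.2 ⟨hN2 k (by omega), hN1 k (by omega)⟩
    · intro hxD
      refine ⟨x, hE.refl x, ?_⟩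
      rw [hQ]
      exact ⟨hx, hxK.trans hKH, hxD⟩
  refine hnR ⟨K, hK, ?_⟩
  rcases hKB with h1 | h1
  · exact Or.inl fun x hx hxK => (hBD x hx hxK).1 (h1 x hx hxK)
  · exact Or.inr fun x hx hxK h2 => h1 x hx hxK ((hBD x hx hxK).2 h2)

end Pool.Agent.Work.RamseyAD
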